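import Pool.Agent.Full.Def.Surf

/-!
# Simply connected regions with an interior end
-/

set_option autoImplicit false

namespace Full

variable {τ : Type*}

/-- the region is simply connected relative to its interior end `z`: every closed mod 2 cochain which
vanishes on `z` is the coboundary of a corner function -/
def SCz (T : Finset τ) (g : Half τ → Half τ) (z : Half τ) : Prop :=
  ∀ χ : Half τ → ZMod 2, (∀ x, χ (g x) = χ x) → (∀ t ∈ T, ∑ d, χ (t, d) = 0) → χ z = 0 →
    ∃ c : Half τ → ZMod 2, Corner g c ∧ ∀ x : Half τ, x.1 ∈ T → c (rho x) = c x + χ x

/-- a simply connected region is simply connected relative to every half edge -/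
theorem SC.scz {T : Finset τ} {g : Half τ → Half τ} (h : SC T g) (z : Half τ) : SCz T g z :=
  fun χ h1 h2 _ => h χ h1 h2

end Full
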