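import Pool.Agent.Full.Def.Shape
import Pool.Agent.Full.Asm.Engine
import Pool.Agent.Full.End.Lim
import Pool.Agent.Full.End.SandDefs

/-!
# The lattice statements on shapes (definitions of the propositions only)

All distances are in coarse units of the shape (thickness of the bars = 1); mesh `1 / n`.
The constants `C₀, C, c` are universal: they do not depend on the shape, on the marks, on `A`, `δ`, `R`, `n`.
-/

set_option autoImplicit false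

open Complex Set Filter Topology Metric H47Perc

namespace Full

open Shape

/-- **(S1) the engine**: in the middle of a row the observable is, up to `C |R| e^(-c A)`, a mixture of amplitudes of the
engine with environments of norm `o(n^(1/5))`. -/
def S1 : Prop := ∃ C₀ C c : ℝ, 1 ≤ C₀ ∧ 0 < c ∧ ∀ (S : Shape), S.Ok → ∀ m : S.Marks, m.Ok → ∀ A : ℝ, 1 ≤ A →
  S.Chan m A → ∀ r : S.R, ∀ κ > 0, ∃ (K : ℕ → ℝ) (κ' : ℝ), 0 < κ' ∧ (∀ n, 0 ≤ K n) ∧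
    Tendsto (fun n : ℕ => K n * (1 / (n : ℝ)) ^ (1 / 5 : ℝ)) atTop (𝓝 0) ∧
    ∀ ε > 0, ∀ᶠ n : ℕ in atTop, ∃ a : ℂ → ℂ, EngMix C₀ κ' (K n) (1 / n) (S.mid r A κ) a ∧
      ∀ z ∈ S.mid r A κ, ‖F m n z - a z‖ ≤ C * Fintype.card S.R * Real.exp (-(c * A)) + ε

/-- **(S2) interior regularity** -/
def S2 : Prop := ∃ C c : ℝ, 0 < c ∧ ∀ (S : Shape), S.Ok → ∀ m : S.Marks, m.Ok → ∀ R : ℝ, 1 ≤ R → ∀ ε > 0,
  ∀ᶠ n : ℕ in atTop, ∀ z z' : ℂ, closedBall z R ⊆ S.dom → dist z z' ≤ R / 2 →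
    ‖F m n z - F m n z'‖ ≤ C * (dist z z' / R) ^ c + ε

/-- **(S3a) the three arcs** -/
def S3a : Prop := ∃ C c : ℝ, 0 < c ∧ ∀ (S : Shape), S.Ok → ∀ m : S.Marks, m.Ok → ∀ (j : Fin 3) (δ R : ℝ), 1 ≤ δ →
  δ ≤ R → ∀ ε > 0, ∀ᶠ n : ℕ in atTop, ∀ z : ℂ, S.Deep z → infDist z (m.opp j) ≤ δ →
    (∀ k, k ≠ j → ∀ w ∈ m.opp k, R ≤ dist z w) →
    infDist (F m n z) (side j) ≤ C * (δ / R) ^ c + ε

/-- **(S3b) the three marks** -/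
def S3b : Prop := ∃ C c : ℝ, 0 < c ∧ ∀ (S : Shape), S.Ok → ∀ m : S.Marks, m.Ok → ∀ (j : Fin 3) (δ R : ℝ), 1 ≤ δ →
  δ ≤ R → ∀ ε > 0, ∀ᶠ n : ℕ in atTop, ∀ z : ℂ, S.Deep z → JoinedIn (S.dom ∩ ball (m.pt j.castSucc) δ) z (m.pt j.castSucc) →
    (∀ w ∈ m.opp j, R ≤ dist (m.pt j.castSucc) w) →
    dist (F m n z) (vert j) ≤ C * (δ / R) ^ c + ε

/-- **(S4) the fourth mark** -/
def S4 : Prop := ∃ C c : ℝ, 0 < c ∧ ∀ (S : Shape), S.Ok → ∀ m : S.Marks, m.Ok → ∀ (δ R : ℝ), 1 ≤ δ →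
  δ ≤ R → ∀ ε > 0, ∀ᶠ n : ℕ in atTop, ∀ z : ℂ, S.Deep z → JoinedIn (S.dom ∩ ball (m.pt 3) δ) z (m.pt 3) →
    (∀ w ∈ m.arc 0 ∪ m.arc 1, R ≤ dist (m.pt 3) w) →
    dist (F m n z) (vert 0 * (p4 m n : ℂ) + vert 2 * (1 - (p4 m n : ℂ))) ≤ C * (δ / R) ^ c + ε

/-- the tail of a half edge of the plane -/
def crn (x : Half (ℤ × ℤ)) : ℤ × ℤ :=
  match x.2 with
  | .E => (x.1.1 + 1, x.1.2)
  | .N => (x.1.1 + 1, x.1.2 + 1)
  | .W => (x.1.1, x.1.2 + 1)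
  | .S => x.1

/-- even corners of the arc from `u` to `v`, shifted by `a` -/
def evArc (g : Half (ℤ × ℤ) → Half (ℤ × ℤ)) (u v : Half (ℤ × ℤ)) (a : ℤ) : Set (ℤ × ℤ) :=
  {p | Even (p.1 + p.2) ∧ ∃ x, (x ∈ btw g u v ∨ x = v) ∧ p = ((crn x).1 + a, (crn x).2)}

/-- **(S5) dictionary at the four marks**: the strand of the fourth mark ends at the mark `2` iff there is an open
crossing from the arc `3` to the arc `1` -/
def S5 : Prop := ∀ (S : Shape), S.Ok → ∀ m : S.Marks, m.Ok → ∀ n : ℕ, 8 ≤ n → ∀ a : Sh S n, (∃ w, IsW4 m n a w) →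
  ∃ i : ℤ, (i = 0 ∨ i = 1) ∧ ∀ V : Finset (ℤ × ℤ), (∀ p ∈ S.T n a.s, pv (cA (p.1 + i, p.2)) ∈ V ∧ pv (cB (p.1 + i, p.2)) ∈ V) →
    1 - P4 m n a = perc half V (CrossT {p | (p.1 - i, p.2) ∈ S.T n a.s}
      (evArc (plane.glue (S.T n a.s)) (m.e n a.σ 3) (m.e n a.σ 0) i)
      (evArc (plane.glue (S.T n a.s)) (m.e n a.σ 1) (m.e n a.σ 2) i))

end Full
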