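import Pool.Agent.Full.Def.Two
import Pool.Agent.Helper69.RSW.Prob

/-!
# Square tiled surfaces and strands

The tiles are the elements of a type `τ`.  A region is a finite set `T` of tiles together with a gluing
`g` of their sides (`Glu T g`), for instance the gluing `S.glue T` given by the right and the upper
neighbours (`Surf`).  A configuration is a set `ω ⊆ T` (the tiles with bit `true`).  A half edge is a
side of a tile.  In a tile with bit `true` the strands join the sides `S, E` and `W, N`
(the diagonal of the tile from the lower left to the upper right corner is present), in a tile with bit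
`false` the sides `S, W` and `E, N` (the other diagonal).
-/

set_option autoImplicit false

namespace Full
open Function Relation

/-- directions = sides of a tile -/
inductive Dir
  | E | N | W | S
  deriving DecidableEq, Repr

namespace Dir

instance : Fintype Dir := ⟨{.E, .N, .W, .S}, by intro x; cases x <;> decide⟩

/-- the opposite direction -/
def opp : Dir → Dir
  | .E => .W | .N => .S | .W => .E | .S => .N

/-- the next side of the tile, counterclockwise -/
def ccw : Dir → Dir
  | .E => .N | .N => .W | .W => .S | .S => .E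

/-- the next side of the tile, clockwise -/
def cw : Dir → Dir
  | .E => .S | .N => .E | .W => .N | .S => .W

@[simp] lemma opp_opp (d : Dir) : d.opp.opp = d := by cases d <;> rfl
@[simp] lemma cw_ccw (d : Dir) : d.ccw.cw = d := by cases d <;> rfl
@[simp] lemma ccw_cw (d : Dir) : d.cw.ccw = d := by cases d <;> rfl
lemma opp_ne (d : Dir) : d.opp ≠ d := by cases d <;> decide
lemma ccw_ne (d : Dir) : d.ccw ≠ d := by cases d <;> decide
lemma cw_ne (d : Dir) : d.cw ≠ d := by cases d <;> decide
lemma ccw_ccw (d : Dir) : d.ccw.ccw = d.opp := by cases d <;> rfl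
lemma ccw_opp (d : Dir) : d.opp.ccw = d.cw := by cases d <;> rfl
lemma cw_opp (d : Dir) : d.opp.cw = d.ccw := by cases d <;> rfl

/-- the partner of a side inside a tile with bit `b` -/
def mt : Bool → Dir → Dir
  | true, .S => .E | true, .E => .S | true, .W => .N | true, .N => .W
  | false, .S => .W | false, .W => .S | false, .E => .N | false, .N => .E

@[simp] lemma mt_mt (b : Bool) (d : Dir) : mt b (mt b d) = d := by cases b <;> cases d <;> rfl
lemma mt_ne (b : Bool) (d : Dir) : mt b d ≠ d := by cases b <;> cases d <;> decide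
lemma mt_eq (b : Bool) (d : Dir) : mt b d = d.ccw ∨ mt b d = d.cw := by
  cases b <;> cases d <;> decide

lemma sum_dir {M : Type*} [AddCommMonoid M] (f : Dir → M) :
    ∑ d, f d = f .E + (f .N + (f .W + f .S)) := by
  have h : (Finset.univ : Finset Dir) = {Dir.E, Dir.N, Dir.W, Dir.S} := by decide
  rw [h, Finset.sum_insert (by decide), Finset.sum_insert (by decide),
    Finset.sum_insert (by decide), Finset.sum_singleton]

end Dir

variable {τ : Type*}

/-- the sides of the tiles; the boundary of a tile is oriented counterclockwise -/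
abbrev Half (τ : Type*) := τ × Dir

/-- the next side of the same tile, counterclockwise: its tail is the head of the given side -/
def rho (x : Half τ) : Half τ := (x.1, x.2.ccw)

lemma rho_inj : Injective (rho : Half τ → Half τ) := by
  rintro ⟨t, d⟩ ⟨t', d'⟩ h
  have h1 : t = t' := congrArg Prod.fst h
  have h2 : d.ccw = d'.ccw := congrArg Prod.snd h
  rw [h1, ← Dir.cw_ccw d, h2, Dir.cw_ccw]

@[simp] lemma rho_fst (x : Half τ) : (rho x).1 = x.1 := rfl

@[simp] lemma rho_rho_rho_rho (x : Half τ) : rho (rho (rho (rho x))) = x := by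
  obtain ⟨t, d⟩ := x
  cases d <;> rfl

/-! ### gluings -/

/-- a gluing of the sides of the tiles of `T`: an involution `g` of the half edges; the fixed points in
`T` are the boundary half edges -/
structure Glu (T : Finset τ) (g : Half τ → Half τ) : Prop where
  inv : ∀ x, g (g x) = x
  mem : ∀ x, x.1 ∈ T → (g x).1 ∈ T
  out : ∀ x, x.1 ∉ T → g x = x

/-- `x` is a boundary half edge of the region `T` with the gluing `g` -/
def Bd (T : Finset τ) (g : Half τ → Half τ) (x : Half τ) : Prop := x.1 ∈ T ∧ g x = x

/-- glued sides have opposite directions -/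
def Straight (g : Half τ → Half τ) : Prop := ∀ x, g x ≠ x → (g x).2 = x.2.opp

/-- an injective map with a finite invariant set is periodic there -/
theorem periodic_of_finite {α : Type*} {f : α → α} (hf : Injective f) {s : Set α}
    (hs : s.Finite) (hm : Set.MapsTo f s s) {x : α} (hx : x ∈ s) : x ∈ periodicPts f := by
  have : Finite s := hs
  have hg : Injective (hm.restrict f s s) := fun a b h => Subtype.ext (hf (congrArg Subtype.val h))
  obtain ⟨n, hn, h1⟩ := hg.mem_periodicPts ⟨x, hx⟩
  refine ⟨n, hn, ?_⟩
  have h2 : (hm.restrict f s s)^[n] ⟨x, hx⟩ = ⟨x, hx⟩ := h1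
  have h3 : ∀ (k : ℕ) (y : s), ((hm.restrict f s s)^[k] y : α) = f^[k] y := by
    intro k
    induction k with
    | zero => intro y; rfl
    | succ k ih => intro y; rw [iterate_succ_apply, iterate_succ_apply, ih]; rfl
  have h4 := h3 n ⟨x, hx⟩
  rw [h2] at h4
  exact h4.symm

lemma finite_half (T : Finset τ) : {y : Half τ | y.1 ∈ T}.Finite := by
  refine Set.Finite.subset ((T ×ˢ (Finset.univ : Finset Dir)).finite_toSet) ?_
  intro y hy
  simp only [Finset.coe_product, Finset.coe_univ, Set.mem_prod, Finset.mem_coe, Set.mem_univ,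
    and_true]
  exact hy

namespace Glu
variable {T : Finset τ} {g : Half τ → Half τ} (hG : Glu T g)
include hG

lemma inj : Injective g := fun x y h => by rw [← hG.inv x, h, hG.inv]

lemma mem_iff {x : Half τ} : (g x).1 ∈ T ↔ x.1 ∈ T :=
  ⟨fun h => by rw [← hG.inv x]; exact hG.mem _ h, hG.mem x⟩

end Glu

/-! ### strands -/

section strand
variable [DecidableEq τ]

/-- the partner of a half edge inside its tile -/
def mate (ω : Finset τ) (x : Half τ) : Half τ := (x.1, Dir.mt (decide (x.1 ∈ ω)) x.2)

@[simp] lemma mate_fst (ω : Finset τ) (x : Half τ) : (mate ω x).1 = x.1 := rfl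

@[simp] lemma mate_mate (ω : Finset τ) (x : Half τ) : mate ω (mate ω x) = x := by
  unfold mate
  simp

lemma mate_ne (ω : Finset τ) (x : Half τ) : mate ω x ≠ x := fun h =>
  Dir.mt_ne _ _ (congrArg Prod.snd h)

lemma mate_congr {ω ω' : Finset τ} {x : Half τ} (h : x.1 ∈ ω ↔ x.1 ∈ ω') : mate ω x = mate ω' x := by
  unfold mate
  simp only [h]

/-- the partner is one of the two neighbouring sides of the tile -/
lemma mate_cases (ω : Finset τ) (x : Half τ) : mate ω x = rho x ∨ rho (mate ω x) = x := by
  obtain ⟨t, d⟩ := x
  unfold mate rho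
  rcases Dir.mt_eq (decide (t ∈ ω)) d with h | h
  · left
    simp only [h]
  · right
    simp only [h, Dir.ccw_cw]

end strand

namespace Glu
variable [DecidableEq τ] {T : Finset τ} {g : Half τ → Half τ} (hG : Glu T g) (ω : Finset τ)
include hG

theorem two : Two (mate ω) g := ⟨mate_mate ω, mate_ne ω, hG.inv⟩

theorem periodic (x : Half τ) : x ∈ periodicPts (g ∘ mate ω) := by
  by_cases hx : x.1 ∈ T
  · exact periodic_of_finite (hG.two ω).inj (finite_half T) (fun y hy => hG.mem _ hy) hx
  · refine ⟨2, by norm_num, ?_⟩
    have h1 : g (mate ω x) = mate ω x := hG.out (mate ω x) hx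
    show g (mate ω (g (mate ω x))) = x
    rw [h1, mate_mate, hG.out x hx]

variable {ω}

/-- a strand stays in `T` -/
theorem conn_mem {x y : Half τ} (hc : Conn (mate ω) g x y) (hx : x.1 ∈ T) : y.1 ∈ T := by
  induction hc with
  | refl => exact hx
  | tail _ h2 ih =>
    rcases h2 with rfl | rfl
    · exact ih
    · exact hG.mem _ ih

theorem other_bd {x : Half τ} (h : Bd T g x) : Bd T g (other (mate ω) g x) :=
  ⟨hG.conn_mem (Conn.iter _ _) h.1, (hG.two ω).other_fix h.2 (hG.periodic ω x)⟩

theorem other_ne {x : Half τ} (h : Bd T g x) : other (mate ω) g x ≠ x :=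
  (hG.two ω).other_ne h.2 (hG.periodic ω x)

theorem other_other {x : Half τ} (h : Bd T g x) : other (mate ω) g (other (mate ω) g x) = x :=
  (hG.two ω).other_other h.2 (hG.periodic ω x)

theorem conn_iff {x y : Half τ} (hx : Bd T g x) (hy : Bd T g y) :
    Conn (mate ω) g x y ↔ y = x ∨ y = other (mate ω) g x :=
  (hG.two ω).conn_iff hx.2 (hG.periodic ω x) hy.2

theorem other_eq_iff {x y : Half τ} (hx : Bd T g x) (hy : Bd T g y) :
    other (mate ω) g x = y ↔ y ≠ x ∧ Conn (mate ω) g x y := by
  constructor
  · rintro rfl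
    exact ⟨hG.other_ne hx, (hG.conn_iff hx hy).2 (Or.inr rfl)⟩
  · rintro ⟨h1, h2⟩
    exact (((hG.conn_iff hx hy).1 h2).resolve_left h1).symm

end Glu

/-- the strands depend only on the configuration in `T` -/
theorem other_congr_conf [DecidableEq τ] {T : Finset τ} {g : Half τ → Half τ} (hG : Glu T g)
    {ω ω' : Finset τ} (h : ∀ t ∈ T, t ∈ ω ↔ t ∈ ω') {x : Half τ} (hx : x.1 ∈ T) :
    other (mate ω') g x = other (mate ω) g x := by
  have key : ∀ k, (g ∘ mate ω')^[k] x = (g ∘ mate ω)^[k] x ∧ ((g ∘ mate ω)^[k] x).1 ∈ T := by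
    intro k
    induction k with
    | zero => exact ⟨rfl, hx⟩
    | succ k ih =>
      rw [iterate_succ_apply', iterate_succ_apply', ih.1]
      have h1 : mate ω' ((g ∘ mate ω)^[k] x) = mate ω ((g ∘ mate ω)^[k] x) :=
        mate_congr (h _ ih.2).symm
      refine ⟨?_, hG.mem _ ih.2⟩
      show g (mate ω' _) = g (mate ω _)
      rw [h1]
  have h1 : minimalPeriod (g ∘ mate ω') x = minimalPeriod (g ∘ mate ω) x := by
    refine minimalPeriod_eq_minimalPeriod_iff.2 fun n => ?_
    show (g ∘ mate ω')^[n] x = x ↔ (g ∘ mate ω)^[n] x = x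
    rw [(key n).1]
  unfold other
  rw [h1, (key _).1]

/-! ### extending a gluing -/

/-- `g'` is a gluing which extends `g`: a larger gluing, or a closing of the boundary, for instance a
wall -/
structure Ext (T : Finset τ) (g g' : Half τ → Half τ) : Prop extends Glu T g' where
  ext : ∀ x, g x ≠ x → g' x = g x

/-- **composition**: two boundary half edges are connected by the strands of the extended gluing iff
they are connected by the strands of `g` and the new gluing -/
theorem Ext.conn_iff [DecidableEq τ] {T : Finset τ} {g g' : Half τ → Half τ} (h : Ext T g g')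
    (hG : Glu T g) {ω : Finset τ} {x y : Half τ} (hx : g x = x) (hy : g y = y) :
    Conn (mate ω) g' x y ↔ Jump (mate ω) g g' x y :=
  conn_ext (hG.two ω) (h.toGlu.two ω) (hG.periodic ω) h.ext hx hy

/-! ### surfaces given by neighbours -/

/-- a square tiled surface: right and upper neighbour -/
structure Surf (τ : Type*) where
  r : τ ≃. τ
  u : τ ≃. τ

namespace Surf

/-- the neighbour of a tile in the direction `d` -/
def nb (S : Surf τ) : Dir → τ → Option τ
  | .E => S.r
  | .W => S.r.symm
  | .N => S.u
  | .S => S.u.symm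

lemma mem_nb {S : Surf τ} {d : Dir} {t t' : τ} : t' ∈ S.nb d t ↔ t ∈ S.nb d.opp t' := by
  cases d
  · exact (PEquiv.mem_iff_mem _).symm
  · exact (PEquiv.mem_iff_mem _).symm
  · exact PEquiv.mem_iff_mem _
  · exact PEquiv.mem_iff_mem _

variable [DecidableEq τ] (S : Surf τ) (T : Finset τ)

/-- the half edge glued to a half edge; the fixed points in `T` are the boundary half edges -/
def glue (x : Half τ) : Half τ :=
  match S.nb x.2 x.1 with
  | none => x
  | some t' => if x.1 ∈ T ∧ t' ∈ T then (t', x.2.opp) else x

variable {S T}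

lemma glue_of_mem {t t' : τ} {d : Dir} (h : t' ∈ S.nb d t) (ht : t ∈ T) (ht' : t' ∈ T) :
    S.glue T (t, d) = (t', d.opp) := by
  rw [Option.mem_def] at h
  simp only [glue, h, ht, ht', and_self, if_true]

lemma glue_of_notMem {x : Half τ} (h : x.1 ∉ T) : S.glue T x = x := by
  unfold glue
  cases h1 : S.nb x.2 x.1 with
  | none => rfl
  | some t' => simp only [h, false_and, if_false]

lemma glue_cases (x : Half τ) : S.glue T x = x ∨
    ∃ t', t' ∈ S.nb x.2 x.1 ∧ x.1 ∈ T ∧ t' ∈ T ∧ S.glue T x = (t', x.2.opp) := by
  unfold glue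
  cases h1 : S.nb x.2 x.1 with
  | none => exact Or.inl rfl
  | some t' =>
    by_cases h : x.1 ∈ T ∧ t' ∈ T
    · right
      exact ⟨t', rfl, h.1, h.2, by simp only [h, and_self, if_true]⟩
    · left
      simp only [h, if_false]

/-- the half edge is inner -/
lemma glue_ne_iff {x : Half τ} : S.glue T x ≠ x ↔ ∃ t', t' ∈ S.nb x.2 x.1 ∧ x.1 ∈ T ∧ t' ∈ T := by
  constructor
  · intro h
    rcases S.glue_cases (T := T) x with h1 | ⟨t', h1, h2, h3, -⟩
    · exact absurd h1 h
    · exact ⟨t', h1, h2, h3⟩
  · rintro ⟨t', h1, h2, h3⟩ h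
    have h4 : S.glue T (x.1, x.2) = (t', x.2.opp) := glue_of_mem h1 h2 h3
    have h5 : x = (t', x.2.opp) := h.symm.trans h4
    exact Dir.opp_ne x.2 (congrArg Prod.snd h5).symm

theorem straight_glue (S : Surf τ) (T : Finset τ) : Straight (S.glue T) := by
  intro x h
  rcases S.glue_cases (T := T) x with h1 | ⟨t', -, -, -, h4⟩
  · exact absurd h1 h
  · rw [h4]

@[simp] lemma glue_glue (x : Half τ) : S.glue T (S.glue T x) = x := by
  rcases S.glue_cases (T := T) x with h1 | ⟨t', h1, h2, h3, h4⟩
  · rw [h1, h1]
  · rw [h4, glue_of_mem (mem_nb.1 h1) h3 h2, Dir.opp_opp]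

lemma glue_mem {x : Half τ} (h : x.1 ∈ T) : (S.glue T x).1 ∈ T := by
  rcases S.glue_cases (T := T) x with h1 | ⟨t', h1, h2, h3, h4⟩
  · rw [h1]; exact h
  · rw [h4]; exact h3

theorem glu (S : Surf τ) (T : Finset τ) : Glu T (S.glue T) :=
  ⟨glue_glue, fun _ => glue_mem, fun _ => glue_of_notMem⟩

end Surf

/-! ### corners, the boundary permutation, simply connected regions -/

/-- rotation about the tail of a half edge, clockwise; for a boundary half edge it is the next side of
the same tile, which starts at its head -/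
def rot (g : Half τ → Half τ) (x : Half τ) : Half τ := rho (g x)

namespace Glu
variable {T : Finset τ} {g : Half τ → Half τ} (hG : Glu T g)
include hG

lemma rot_inj : Injective (rot g) := fun _ _ h => hG.inj (rho_inj h)

lemma rot_periodic (x : Half τ) : x ∈ periodicPts (rot g) := by
  by_cases hx : x.1 ∈ T
  · exact periodic_of_finite hG.rot_inj (finite_half T) (fun y hy => hG.mem _ hy) hx
  · have h1 : ∀ y : Half τ, y.1 ∉ T → rot g y = rho y := fun y hy => by
      unfold rot; rw [hG.out y hy]
    refine ⟨4, by norm_num, ?_⟩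
    show rot g (rot g (rot g (rot g x))) = x
    rw [h1 x hx, h1 (rho x) hx, h1 (rho (rho x)) hx, h1 (rho (rho (rho x))) hx, rho_rho_rho_rho]

end Glu

open Classical in
/-- the next boundary half edge, counterclockwise (the region is on the left): first return of the
rotation to the fixed points of the gluing -/
noncomputable def next (g : Half τ → Half τ) (x : Half τ) : Half τ :=
  if h : ∃ k, 1 ≤ k ∧ g ((rot g)^[k] x) = (rot g)^[k] x then (rot g)^[Nat.find h] x else x

/-- corner functions: the value of `c` at a half edge is its value at the tail; both sides of a glued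
edge have the same corners -/
def Corner {X : Type*} (g : Half τ → Half τ) (c : Half τ → X) : Prop :=
  ∀ x, g x ≠ x → c (g x) = c (rho x)

namespace Glu
variable {T : Finset τ} {g : Half τ → Half τ} (hG : Glu T g)
include hG

lemma exists_next {x : Half τ} (hx : g x = x) :
    ∃ k, 1 ≤ k ∧ g ((rot g)^[k] x) = (rot g)^[k] x := by
  obtain ⟨n, hn, h1⟩ := hG.rot_periodic x
  exact ⟨n, hn, by rw [show (rot g)^[n] x = x from h1, hx]⟩

/-- the boundary half edge `next g x` is reached by rotating through glued half edges -/
lemma next_spec {x : Half τ} (hx : g x = x) : ∃ k, 1 ≤ k ∧ next g x = (rot g)^[k] x ∧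
    g (next g x) = next g x ∧ ∀ j, 1 ≤ j → j < k → g ((rot g)^[j] x) ≠ (rot g)^[j] x := by
  classical
  have hex := hG.exists_next hx
  refine ⟨Nat.find hex, (Nat.find_spec hex).1, ?_, ?_, fun j h1 h2 h3 => Nat.find_min hex h2 ⟨h1, h3⟩⟩
  · unfold next
    rw [dif_pos hex]
  · unfold next
    rw [dif_pos hex]
    exact (Nat.find_spec hex).2

lemma next_fix {x : Half τ} (hx : g x = x) : g (next g x) = next g x := by
  obtain ⟨k, -, -, h, -⟩ := hG.next_spec hx
  exact h

lemma next_mem {x : Half τ} (hx : x.1 ∈ T) : (next g x).1 ∈ T := by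
  classical
  have key : ∀ k, ((rot g)^[k] x).1 ∈ T := by
    intro k
    induction k with
    | zero => exact hx
    | succ k ih => rw [iterate_succ_apply']; exact hG.mem _ ih
  unfold next
  split_ifs
  · exact key _
  · exact hx

lemma next_bd {x : Half τ} (hx : Bd T g x) : Bd T g (next g x) := ⟨hG.next_mem hx.1, hG.next_fix hx.2⟩

/-- `next` is injective on the boundary half edges -/
lemma next_inj {x y : Half τ} (hx : g x = x) (hy : g y = y) (h : next g x = next g y) : x = y := by
  obtain ⟨k, hk, h1, -, h2⟩ := hG.next_spec hx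
  obtain ⟨l, hl, h3, -, h4⟩ := hG.next_spec hy
  rw [h1, h3] at h
  rcases lt_trichotomy k l with hkl | hkl | hkl
  · exfalso
    have h5 : (rot g)^[k] x = (rot g)^[k] ((rot g)^[l - k] y) := by
      rw [← iterate_add_apply, show k + (l - k) = l by omega]
      exact h
    have h6 := hG.rot_inj.iterate k h5
    have h7 := h4 (l - k) (by omega) (by omega)
    rw [← h6] at h7
    exact h7 hx
  · rw [hkl] at h
    exact hG.rot_inj.iterate l h
  · exfalso
    have h5 : (rot g)^[l] ((rot g)^[k - l] x) = (rot g)^[l] y := by
      rw [← iterate_add_apply, show l + (k - l) = k by omega]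
      exact h
    have h6 := hG.rot_inj.iterate l h5
    have h7 := h2 (k - l) (by omega) (by omega)
    rw [h6] at h7
    exact h7 hy

/-- a corner function at the head of a boundary half edge is its value at the next one -/
theorem corner_next {X : Type*} {c : Half τ → X} (h : Corner g c) {x : Half τ}
    (hx : g x = x) : c (next g x) = c (rho x) := by
  have key : ∀ k, 1 ≤ k → (∀ j, 1 ≤ j → j < k → g ((rot g)^[j] x) ≠ (rot g)^[j] x) →
      c ((rot g)^[k] x) = c (rho x) := by
    intro k hk
    induction k, hk using Nat.le_induction with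
    | base =>
      intro _
      show c (rho (g x)) = c (rho x)
      rw [hx]
    | succ k hk ih =>
      intro h1
      have h2 := ih fun j hj1 hj2 => h1 j hj1 (by omega)
      have h3 := h1 k hk (by omega)
      rw [iterate_succ_apply', ← h2]
      set y := (rot g)^[k] x with hy
      have h4 : g (g y) ≠ g y := by
        rw [hG.inv]; exact Ne.symm h3
      have h5 := h (g y) h4
      rw [hG.inv] at h5
      exact h5.symm
  obtain ⟨k, hk, h1, -, h2⟩ := hG.next_spec hx
  rw [h1]
  exact key k hk h2

end Glu

/-- the region is simply connected (mod 2): every closed mod 2 cochain is the coboundary of a corner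
function -/
def SC (T : Finset τ) (g : Half τ → Half τ) : Prop :=
  ∀ χ : Half τ → ZMod 2, (∀ x, χ (g x) = χ x) → (∀ t ∈ T, ∑ d, χ (t, d) = 0) →
    ∃ c : Half τ → ZMod 2, Corner g c ∧ ∀ x : Half τ, x.1 ∈ T → c (rho x) = c x + χ x

/-- a closed wall of the region `(T, g)`: an extension of the gluing which joins neighbouring boundary
half edges.  Its fixed points in `T` are the ends (marks, interior points) -/
structure Wall (T : Finset τ) (g w : Half τ → Half τ) : Prop extends Ext T g w where
  near : ∀ x, Bd T g x → w x = x ∨ w x = next g x ∨ x = next g (w x)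

/-- the observable: `z`, `e 0`, `e 1`, `e 2` are the four ends of the wall `w` -/
noncomputable def obs [DecidableEq τ] (T : Finset τ) (w : Half τ → Half τ) (z : Half τ)
    (e : Fin 3 → Half τ) : ℂ :=
  ∑ j : Fin 3, Complex.exp (2 * Real.pi * Complex.I / 3) ^ (j : ℕ) *
    ((Pool.Agent.Helper69.RSW.P T (fun ω => other (mate ω) w z = e j) : ℝ) : ℂ)

end Full
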