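import Pool.Agent.Full.Def.Shape
import Pool.Agent.Full.Disc.Next

/-!
# Closed walls with given ends

`Build.ret ν E x`: the number of steps from `x` to the next point of `E` (at least one).
* `exists_isW`: if every boundary cycle meets `E` and the number of boundary half edges between
  consecutive points of `E` is even then there is a closed wall with the ends `E`;
* `IsW.unique`: it is unique; `IsW.odd`: the condition is necessary;
* `IsW.eq_next`: `w x = next g x` if and only if the number of steps to the next end is even.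
-/

set_option autoImplicit false

namespace Full
open Function Relation

namespace Build

section ret
variable {α : Type*} (ν : α → α) (E : Set α)

open Classical in
/-- the number of steps to the next point of `E` -/
noncomputable def ret (x : α) : ℕ := if h : ∃ k, 1 ≤ k ∧ ν^[k] x ∈ E then Nat.find h else 0

variable {ν E}

lemma ret_spec {x : α} (h : ∃ k, 1 ≤ k ∧ ν^[k] x ∈ E) :
    1 ≤ ret ν E x ∧ ν^[ret ν E x] x ∈ E ∧ ∀ k, 1 ≤ k → k < ret ν E x → ν^[k] x ∉ E := by
  classical
  unfold ret
  rw [dif_pos h]
  exact ⟨(Nat.find_spec h).1, (Nat.find_spec h).2, fun k h1 h2 h3 => Nat.find_min h h2 ⟨h1, h3⟩⟩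

lemma ret_eq {x : α} {n : ℕ} (h1 : 1 ≤ n) (h2 : ν^[n] x ∈ E) (h3 : ∀ k, 1 ≤ k → k < n → ν^[k] x ∉ E) :
    ret ν E x = n := by
  obtain ⟨h4, h5, h6⟩ := ret_spec (ν := ν) (E := E) ⟨n, h1, h2⟩
  rcases lt_trichotomy (ret ν E x) n with h | h | h
  · exact absurd h5 (h3 _ h4 h)
  · exact h
  · exact absurd h2 (h6 _ h1 h)

/-- one step -/
lemma ret_succ {x : α} (h : ∃ k, 1 ≤ k ∧ ν^[k] x ∈ E) (hx : ν x ∉ E) :
    ret ν E x = ret ν E (ν x) + 1 := by
  obtain ⟨h1, h2, h3⟩ := ret_spec h
  have h4 : ret ν E x ≠ 1 := by
    intro h4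
    rw [h4] at h2
    exact hx h2
  have h5 : ret ν E (ν x) = ret ν E x - 1 := by
    refine ret_eq (by omega) ?_ fun k hk hk' => ?_
    · rw [← iterate_succ_apply, show (ret ν E x - 1).succ = ret ν E x by omega]
      exact h2
    · rw [← iterate_succ_apply]
      exact h3 _ (by omega) (by omega)
  omega

lemma ret_one {x : α} (hx : ν x ∈ E) : ret ν E x = 1 :=
  ret_eq le_rfl hx fun k h1 h2 => by omega

end ret

end Build

open Build

variable {τ : Type*} {T : Finset τ} {g : Half τ → Half τ} {E : Set (Half τ)}

/-- `E` meets every boundary cycle -/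
def Meets (T : Finset τ) (g : Half τ → Half τ) (E : Set (Half τ)) : Prop :=
  ∀ x, Bd T g x → ∃ k, 1 ≤ k ∧ (next g)^[k] x ∈ E

/-- an extension maps the boundary to itself -/
theorem Ext.bd {g' : Half τ → Half τ} (h : Ext T g g') (hG : Glu T g) {x : Half τ} (hx : Bd T g x) :
    Bd T g (g' x) := by
  refine ⟨h.mem _ hx.1, ?_⟩
  by_contra h5
  have h6 := h.ext _ h5
  rw [h.inv] at h6
  have h7 : g x = g' x := (congrArg g h6).trans (hG.inv _)
  rw [hx.2] at h7
  rw [← h7] at h5
  exact h5 hx.2

/-- the predecessor on the boundary -/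
theorem Glu.exists_prev (hG : Glu T g) {x : Half τ} (hx : Bd T g x) : ∃ y, Bd T g y ∧ next g y = x := by
  obtain ⟨n, hn, h⟩ := hG.next_periodic hx
  refine ⟨(next g)^[n - 1] x, hG.bd_iter hx _, ?_⟩
  rw [← iterate_succ_apply' (next g), show (n - 1).succ = n by omega]
  exact h

open Classical in
/-- the wall with the ends `E` -/
noncomputable def wallOf (T : Finset τ) (g : Half τ → Half τ) (E : Set (Half τ)) (x : Half τ) : Half τ :=
  if Bd T g x ∧ x ∉ E then
    if Even (ret (next g) E x) then next g x
    else if h : ∃ y, Bd T g y ∧ next g y = x then h.choose else x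
  else g x

namespace Glu
variable (hG : Glu T g) (hE : Meets T g E) (hodd : ∀ e, Bd T g e → e ∈ E → Odd (ret (next g) E e))
include hG

omit hG in
lemma wallOf_of_not {x : Half τ} (h : ¬ (Bd T g x ∧ x ∉ E)) : wallOf T g E x = g x := if_neg h

omit hG in
lemma wallOf_even {x : Half τ} (h : Bd T g x) (h' : x ∉ E) (he : Even (ret (next g) E x)) :
    wallOf T g E x = next g x := by
  unfold wallOf
  rw [if_pos ⟨h, h'⟩, if_pos he]

lemma wallOf_odd {x : Half τ} (h : Bd T g (next g x)) (h' : next g x ∉ E) (hx : Bd T g x)
    (he : ¬ Even (ret (next g) E (next g x))) : wallOf T g E (next g x) = x := by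
  unfold wallOf
  rw [if_pos ⟨h, h'⟩, if_neg he]
  have h1 : ∃ y, Bd T g y ∧ next g y = next g x := ⟨x, hx, rfl⟩
  rw [dif_pos h1]
  exact hG.next_inj h1.choose_spec.1.2 hx.2 h1.choose_spec.2

include hE hodd

/-- **existence of closed walls** -/
theorem isW_wallOf : IsW T g E (wallOf T g E) := by
  -- the three cases of a boundary half edge
  have key : ∀ x, Bd T g x → x ∉ E →
      (Even (ret (next g) E x) ∧ wallOf T g E x = next g x ∧ next g x ∉ E ∧
        ¬ Even (ret (next g) E (next g x))) ∨
      ∃ y, Bd T g y ∧ next g y = x ∧ wallOf T g E x = y ∧ y ∉ E ∧ Even (ret (next g) E y) := by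
    intro x hx hxE
    by_cases he : Even (ret (next g) E x)
    · left
      have h1 := (ret_spec (hE x hx)).1
      have h2 : next g x ∉ E := by
        intro h
        rw [ret_one h] at he
        exact absurd he (by decide)
      refine ⟨he, wallOf_even hx hxE he, h2, ?_⟩
      rw [ret_succ (hE x hx) h2, Nat.even_add_one] at he
      exact he
    · right
      obtain ⟨y, hy, rfl⟩ := hG.exists_prev hx
      refine ⟨y, hy, rfl, hG.wallOf_odd hx hxE hy he, ?_, ?_⟩
      · intro hyE
        have h1 := hodd y hy hyE
        rw [ret_succ (hE y hy) hxE, Nat.odd_add_one, Nat.not_odd_iff_even] at h1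
        exact he h1
      · rw [ret_succ (hE y hy) hxE, Nat.even_add_one]
        exact he
  have hbd : ∀ x, Bd T g x → Bd T g (wallOf T g E x) := by
    intro x hx
    by_cases hxE : x ∈ E
    · rw [wallOf_of_not (fun h => h.2 hxE), hx.2]
      exact hx
    · rcases key x hx hxE with ⟨-, h, -⟩ | ⟨y, hy, -, h, -⟩
      · rw [h]; exact hG.next_bd hx
      · rw [h]; exact hy
  have hno : ∀ x, ¬ Bd T g x → wallOf T g E x = g x := fun x hx => wallOf_of_not fun h => hx h.1
  have hcon : ∀ x, x ∈ E → wallOf T g E x = g x := fun x hx => wallOf_of_not fun h => h.2 hx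
  refine ⟨⟨⟨⟨fun x => ?_, fun x hx => ?_, fun x hx => ?_⟩, fun x hx => ?_⟩, fun x hx => ?_⟩, fun x hx => ?_⟩
  · by_cases hx : Bd T g x
    · by_cases hxE : x ∈ E
      · rw [hcon x hxE, hx.2, hcon x hxE, hx.2]
      · rcases key x hx hxE with ⟨-, h, h2, h3⟩ | ⟨y, hy, h1, h, h2, h3⟩
        · rw [h]
          exact hG.wallOf_odd (hG.next_bd hx) h2 hx h3
        · rw [h, wallOf_even hy h2 h3, h1]
    · rw [hno x hx]
      by_cases h1 : x.1 ∈ T
      · have h2 : g x ≠ x := fun h => hx ⟨h1, h⟩
        have h3 : ¬ Bd T g (g x) := fun h => h2 (by have := h.2; rw [hG.inv] at this; exact this.symm)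
        rw [hno _ h3, hG.inv]
      · rw [hG.out x h1, hno x hx, hG.out x h1]
  · by_cases h1 : Bd T g x
    · exact (hbd x h1).1
    · rw [hno x h1]; exact hG.mem x hx
  · rw [hno x fun h => hx h.1]
    exact hG.out x hx
  · exact hno x fun h => hx h.2
  · by_cases hxE : x ∈ E
    · left
      rw [hcon x hxE, hx.2]
    · rcases key x hx hxE with ⟨-, h, -⟩ | ⟨y, hy, h1, h, -⟩
      · exact Or.inr (Or.inl h)
      · exact Or.inr (Or.inr (by rw [h, h1]))
  · constructor
    · intro h
      by_contra hxE
      rcases key x hx hxE with ⟨h0, h1, h2, h3⟩ | ⟨y, hy, h1, h2, h3, h4⟩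
      · rw [h1] at h
        rw [h] at h3
        exact h3 h0
      · rw [h2] at h
        subst h
        have h5 := wallOf_even hy h3 h4
        rw [h2] at h5
        have h6 := ret_succ (hE y hy) (by rw [← h5]; exact h3)
        rw [← h5] at h6
        omega
    · intro h
      rw [hcon x h, hx.2]

/-- a closed wall with the ends `E` exists -/
theorem exists_isW : ∃ w, IsW T g E w := ⟨_, hG.isW_wallOf hE hodd⟩

end Glu

namespace IsW
variable {w w' : Half τ → Half τ} (hG : Glu T g) (hE : Meets T g E) (h : IsW T g E w)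
include hG hE h

lemma aux : ∀ (n : ℕ) (x : Half τ), Bd T g x → x ∉ E → ret (next g) E x = n →
    (Even n → w x = next g x) ∧ (¬ Even n → next g (w x) = x) := by
  intro n
  induction n with
  | zero =>
    intro x hx _ h0
    have := (ret_spec (hE x hx)).1
    omega
  | succ n ih =>
    intro x hx hxE hn
    have hfix : w x ≠ x := fun h1 => hxE ((h.ends x hx).1 h1)
    by_cases h1 : next g x ∈ E
    · rw [ret_one h1] at hn
      have hn0 : n = 0 := by omega
      subst hn0
      refine ⟨fun h2 => absurd h2 (by decide), fun _ => ?_⟩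
      rcases h.near x hx with h2 | h2 | h2
      · exact absurd h2 hfix
      · exfalso
        have h3 := (h.ends _ (hG.next_bd hx)).2 h1
        rw [← h2, h.inv] at h3
        exact hfix h3.symm
      · exact h2.symm
    · rw [ret_succ (hE x hx) h1] at hn
      have h2 := ih (next g x) (hG.next_bd hx) h1 (by omega)
      constructor
      · intro h3
        rw [Nat.even_add_one] at h3
        have h4 := h2.2 h3
        have h5 : Bd T g (w (next g x)) := h.toExt.bd hG (hG.next_bd hx)
        have h6 := hG.next_inj h5.2 hx.2 h4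
        rw [← h6, h.inv, h6]
      · intro h3
        rw [Nat.even_add_one, not_not] at h3
        have h4 := h2.1 h3
        rcases h.near x hx with h5 | h5 | h5
        · exact absurd h5 hfix
        · exfalso
          have h6 : w (next g x) = x := by rw [← h5, h.inv]
          rw [h4] at h6
          -- the cycle of `x` does not meet `E`
          obtain ⟨k, hk, h7⟩ := hE x hx
          have h8 : ∀ j, (next g)^[j] x = x ∨ (next g)^[j] x = next g x := by
            intro j
            induction j with
            | zero => exact Or.inl rfl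
            | succ j ihj =>
              rw [iterate_succ_apply']
              rcases ihj with h9 | h9
              · rw [h9]; exact Or.inr rfl
              · rw [h9, h6]; exact Or.inl rfl
          rcases h8 k with h9 | h9
          · rw [h9] at h7; exact hxE h7
          · rw [h9] at h7; exact h1 h7
        · exact h5.symm

/-- `w x` is the next boundary half edge iff the number of steps to the next end is even -/
theorem eq_next {x : Half τ} (hx : Bd T g x) (hxE : x ∉ E) (h1 : Even (ret (next g) E x)) :
    w x = next g x := (aux hG hE h _ x hx hxE rfl).1 h1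

/-- otherwise it is the previous one -/
theorem eq_prev {x : Half τ} (hx : Bd T g x) (hxE : x ∉ E) (h1 : ¬ Even (ret (next g) E x)) :
    next g (w x) = x := (aux hG hE h _ x hx hxE rfl).2 h1

/-- the number of boundary half edges between consecutive ends is even -/
theorem odd {e : Half τ} (he : Bd T g e) (heE : e ∈ E) : Odd (ret (next g) E e) := by
  by_cases h1 : next g e ∈ E
  · rw [ret_one h1]; decide
  · rw [ret_succ (hE e he) h1]
    rw [Nat.odd_add_one, Nat.not_odd_iff_even]
    by_contra h2
    have h3 := eq_prev hG hE h (hG.next_bd he) h1 h2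
    have h4 : w (next g e) = e := hG.next_inj (h.toExt.bd hG (hG.next_bd he)).2 he.2 h3
    have h5 : w e = next g e := by rw [← h4, h.inv, h4]
    rw [(h.ends e he).2 heE] at h5
    rw [← h5] at h1
    exact h1 heE

/-- **uniqueness of closed walls** -/
theorem eq_of (h' : IsW T g E w') : w = w' := by
  funext x
  by_cases hx : Bd T g x
  · by_cases hxE : x ∈ E
    · rw [(h.ends x hx).2 hxE, (h'.ends x hx).2 hxE]
    · by_cases h1 : Even (ret (next g) E x)
      · rw [eq_next hG hE h hx hxE h1, eq_next hG hE h' hx hxE h1]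
      · exact hG.next_inj (h.toExt.bd hG hx).2 (h'.toExt.bd hG hx).2
          ((eq_prev hG hE h hx hxE h1).trans (eq_prev hG hE h' hx hxE h1).symm)
  · by_cases h1 : x.1 ∈ T
    · have h2 : g x ≠ x := fun h3 => hx ⟨h1, h3⟩
      rw [h.ext x h2, h'.ext x h2]
    · rw [h.out x h1, h'.out x h1]

end IsW

/-- **closed walls exist iff all numbers of steps between consecutive ends are odd** -/
theorem Glu.exists_isW_iff (hG : Glu T g) (hE : Meets T g E) : (∃ w, IsW T g E w) ↔
    ∀ e, Bd T g e → e ∈ E → Odd (ret (next g) E e) :=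
  ⟨fun ⟨_, h⟩ _ he heE => h.odd hG hE he heE, fun h => hG.exists_isW hE h⟩

end Full
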