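import Pool.Agent.Full.Def.Geo

/-!
# Shapes: the family of domains of the FULL project

A shape is a finite family of coarse rectangles (`rooms`) with integer coordinates: the rooms of `R` are the
horizontal rows, the rooms of `K` (`links`) are the openings between two rows; `dn k` (`up k`) is the row
below (above) the link `k`.  A link is strictly inside both rows.  Distinct rooms which do not touch are at
distance at least one: the bars between the rows are thick.

Fine region: `n` tiles per coarse unit; every vertical wall of a room is shifted by its own integer `s`.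
-/

set_option autoImplicit false

namespace Full
open Function Relation

/-- coarse data of a shape -/
structure Shape where
  R : Type
  K : Type
  fR : Fintype R
  fK : Fintype K
  xl : R ⊕ K → ℤ
  xr : R ⊕ K → ℤ
  yb : R ⊕ K → ℤ
  yt : R ⊕ K → ℤ
  dn : K → R
  up : K → R

/-- closed wall with the set `E` of ends -/
structure IsW {τ : Type*} (T : Finset τ) (g : Half τ → Half τ) (E : Set (Half τ)) (w : Half τ → Half τ) : Prop
    extends Wall T g w where
  ends : ∀ x, Bd T g x → (w x = x ↔ x ∈ E)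

/-- four boundary half edges in counterclockwise order -/
def Cyc4 {τ : Type*} (g : Half τ → Half τ) (e : Fin 4 → Half τ) : Prop :=
  ∃ a b c : ℕ, 0 < a ∧ a < b ∧ b < c ∧ c < minimalPeriod (next g) (e 0) ∧
    (next g)^[a] (e 0) = e 1 ∧ (next g)^[b] (e 0) = e 2 ∧ (next g)^[c] (e 0) = e 3

/-- the boundary half edges strictly between `u` and `v`, counterclockwise -/
def btw {τ : Type*} (g : Half τ → Half τ) (u v : Half τ) : Set (Half τ) :=
  {x | ∃ k : ℕ, 0 < k ∧ (next g)^[k] u = x ∧ ∀ i, 0 < i → i ≤ k → (next g)^[i] u ≠ v}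

namespace Shape
variable (S : Shape)

instance : Fintype S.R := S.fR
instance : Fintype S.K := S.fK

/-- the rooms -/
abbrev Q := S.R ⊕ S.K

/-- the room `b` is on top of the room `a` -/
def On : S.Q → S.Q → Prop
  | .inl r, .inr k => S.dn k = r
  | .inr k, .inl r => S.up k = r
  | _, _ => False

/-- the coarse cells of the shape -/
def cells : Set (ℤ × ℤ) := {c | ∃ q, (S.xl q ≤ c.1 ∧ c.1 < S.xr q) ∧ S.yb q ≤ c.2 ∧ c.2 < S.yt q}

/-- admissible shapes -/
structure Ok : Prop where
  x_lt : ∀ q, S.xl q < S.xr q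
  y_lt : ∀ q, S.yb q < S.yt q
  on_y : ∀ a b, S.On a b → S.yt a = S.yb b
  dn_l : ∀ k, S.xl (.inl (S.dn k)) < S.xl (.inr k)
  dn_r : ∀ k, S.xr (.inr k) < S.xr (.inl (S.dn k))
  up_l : ∀ k, S.xl (.inl (S.up k)) < S.xl (.inr k)
  up_r : ∀ k, S.xr (.inr k) < S.xr (.inl (S.up k))
  /-- rooms which do not touch are at distance at least one -/
  sep : ∀ a b, a ≠ b → ¬ S.On a b → ¬ S.On b a →
    S.xr a < S.xl b ∨ S.xr b < S.xl a ∨ S.yt a < S.yb b ∨ S.yt b < S.yb a
  /-- connected -/
  conn : ∀ a b, ReflTransGen (fun u v => S.On u v ∨ S.On v u) a b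
  /-- simply connected: every cell of the complement is joined to cells far below in the complement -/
  compl : ∀ c, c ∉ S.cells → ∀ N : ℤ, ∃ c' : ℤ × ℤ, c'.2 < N ∧
    ReflTransGen (fun u v : ℤ × ℤ => v ∉ S.cells ∧ ((v.1 = u.1 ∧ |v.2 - u.2| = 1) ∨ (v.2 = u.2 ∧ |v.1 - u.1| = 1))) c c'

/-- the coarse domain, an open subset of the plane -/
def dom : Set ℂ := interior {z | ∃ q, ((S.xl q : ℝ) ≤ z.re ∧ z.re ≤ S.xr q) ∧ (S.yb q : ℝ) ≤ z.im ∧ z.im ≤ S.yt q}

/-! ### the fine region -/

section fine
variable (n : ℕ) (s : S.Q × Bool → ℕ)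

/-- left wall -/
def fl (q : S.Q) : ℤ := n * S.xl q + s (q, false)
/-- right wall -/
def fr (q : S.Q) : ℤ := n * S.xr q + s (q, true)
/-- floor -/
def fb (q : S.Q) : ℤ := n * S.yb q
/-- ceiling -/
def ft (q : S.Q) : ℤ := n * S.yt q

/-- the tiles of a room -/
noncomputable def room (q : S.Q) : Finset (ℤ × ℤ) := box (S.fl n s q) (S.fr n s q) (S.fb n q) (S.ft n q)

/-- the fine region -/
noncomputable def T : Finset (ℤ × ℤ) := Finset.univ.biUnion fun q => S.room n s q

/-- the rooms of the part of the shape which is attached to the ceiling (`top = true`) or to the floor of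
the room `q` -/
def part (q : S.Q) (top : Bool) : Set S.Q :=
  {p | ∃ a, (if top then S.On q a else S.On a q) ∧
    ReflTransGen (fun u v => v ≠ q ∧ (S.On u v ∨ S.On v u)) a p}

open Classical in
/-- the tiles of the part attached to the ceiling or the floor of `q` -/
noncomputable def side (q : S.Q) (top : Bool) : Finset (ℤ × ℤ) :=
  (Finset.univ.filter fun p => p ∈ S.part q top).biUnion fun p => S.room n s p

/-- the tiles of the domain with an end `z` in the room `q`, at the height `y` -/
noncomputable def zT (q : S.Q) (y : ℤ) : Finset ZT :=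
  (S.side n s q false ∪ box (S.fl n s q) (S.fr n s q + 1) (S.fb n q) y).disjSum
    (S.side n s q true ∪ box (S.fl n s q) (S.fr n s q) y (S.ft n q))

/-- the gluing of the domain with the end `z = (x, y)` -/
noncomputable def zg (q : S.Q) (x y : ℤ) : Half ZT → Half ZT :=
  (zsurf (S.fl n s q) (S.fr n s q) x y y y).glue (S.zT n s q y)

/-- `z = (x, y)` is strictly inside the room `q` -/
def In (q : S.Q) (x y : ℤ) : Prop :=
  (S.fl n s q < x ∧ x < S.fr n s q) ∧ S.fb n q < y ∧ y < S.ft n q

end fine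

/-- the end `z` -/
def zz (x y : ℤ) : Half ZT := (Sum.inl (x, y - 1), Dir.N)

/-- the link `k` is attached to the ceiling (`true`) or to the floor (`false`) of the row `r` -/
def Att (k : S.K) (r : S.R) (b : Bool) : Prop := if b then S.dn k = r else S.up k = r

/-- four marks on horizontal walls of rows: the row, ceiling or floor, coarse abscissa (unit cell of the wall);
labels of the walls: the part of the boundary between the marks `j` and `j + 1` (counterclockwise) has the label
`j`: `wl`, `wr` left and right walls of the rooms, `La r b x`, `Lb r b x` left and right half of the cell `x` of the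
ceiling or floor of the row `r` -/
structure Marks where
  room : Fin 4 → S.R
  top : Fin 4 → Bool
  x : Fin 4 → ℤ
  wl : S.Q → Fin 4
  wr : S.Q → Fin 4
  La : S.R → Bool → ℤ → Fin 4
  Lb : S.R → Bool → ℤ → Fin 4

namespace Marks
variable {S} (m : S.Marks)

/-- height of the tile at the mark -/
def fy (n : ℕ) (j : Fin 4) : ℤ := if m.top j then S.ft n (.inl (m.room j)) - 1 else S.fb n (.inl (m.room j))

/-- direction of the mark -/
def dir (j : Fin 4) : Dir := if m.top j then Dir.N else Dir.S

/-- the mark as a boundary half edge of the fine region, `σ` = shifts -/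
def e (n : ℕ) (σ : Fin 4 → ℕ) (j : Fin 4) : Half (ℤ × ℤ) := ((n * m.x j + σ j, m.fy n j), m.dir j)

open Classical in
/-- the mark as a boundary half edge of the domain with the end `z` in the room `q` -/
noncomputable def ez (n : ℕ) (σ : Fin 4 → ℕ) (q : S.Q) (j : Fin 4) : Half ZT :=
  if (Sum.inl (m.room j) : S.Q) ∈ S.part q false ∨ (Sum.inl (m.room j) = q ∧ m.top j = false) then
    (Sum.inl (n * m.x j + σ j, m.fy n j), m.dir j)
  else (Sum.inr (n * m.x j + σ j, m.fy n j), m.dir j)

/-- admissible marks -/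
structure Ok : Prop where
  left : ∀ j, S.xl (.inl (m.room j)) < m.x j
  right : ∀ j, m.x j + 1 < S.xr (.inl (m.room j))
  /-- not at an opening -/
  wall : ∀ j k, S.Att k (m.room j) (m.top j) → m.x j + 1 < S.xl (.inr k) ∨ S.xr (.inr k) < m.x j
  /-- the label changes at the marks only -/
  same : ∀ r b x, (∀ j, ¬ (m.room j = r ∧ m.top j = b ∧ m.x j = x)) → m.La r b x = m.Lb r b x
  floor : ∀ j, m.top j = false → m.La (m.room j) false (m.x j) = j - 1 ∧ m.Lb (m.room j) false (m.x j) = j
  ceil : ∀ j, m.top j = true → m.Lb (m.room j) true (m.x j) = j - 1 ∧ m.La (m.room j) true (m.x j) = j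
  /-- neighbouring cells of a floor or a ceiling -/
  step : ∀ r b x, S.xl (.inl r) ≤ x → x < S.xr (.inl r) →
    (∀ k, S.Att k r b → x < S.xl (.inr k) ∨ S.xr (.inr k) ≤ x) → m.La r b (x + 1) = m.Lb r b x
  fst : ∀ r b, m.La r b (S.xl (.inl r)) = m.wl (.inl r)
  lst : ∀ r b, m.Lb r b (S.xr (.inl r)) = m.wr (.inl r)
  att_l : ∀ k r b, S.Att k r b → m.Lb r b (S.xl (.inr k)) = m.wl (.inr k)
  att_r : ∀ k r b, S.Att k r b → m.La r b (S.xr (.inr k)) = m.wr (.inr k)
  /-- all marks are on floors -/
  low : ∀ j, m.top j = false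

/-- a point of the domain close to the mark -/
noncomputable def pt (j : Fin 4) : ℂ :=
  ⟨m.x j + 1 / 8, if m.top j then S.yt (.inl (m.room j)) - 1 / 8 else S.yb (.inl (m.room j)) + 1 / 8⟩

/-- the walls with the label `j` -/
def arc (j : Fin 4) : Set ℂ :=
  {z | (∃ q, z.re = S.xl q ∧ ((S.yb q : ℝ) ≤ z.im ∧ z.im ≤ S.yt q) ∧ m.wl q = j) ∨
    (∃ q, z.re = S.xr q ∧ ((S.yb q : ℝ) ≤ z.im ∧ z.im ≤ S.yt q) ∧ m.wr q = j) ∨
    ∃ r b, ∃ x : ℤ, (S.xl (.inl r) ≤ x ∧ x < S.xr (.inl r)) ∧
      (∀ k, S.Att k r b → x < S.xl (.inr k) ∨ S.xr (.inr k) ≤ x) ∧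
      z.im = ((if b then S.yt (.inl r) else S.yb (.inl r) : ℤ) : ℝ) ∧ ((x : ℝ) ≤ z.re ∧ z.re ≤ x + 1) ∧
      (m.La r b x = j ∨ m.Lb r b x = j)}

/-- the part of the boundary opposite to the mark `j` (three marks `0, 1, 2`) -/
def opp : Fin 3 → Set ℂ := ![m.arc 1, m.arc 2 ∪ m.arc 3, m.arc 0]

end Marks

/-- cyclic order of the marks on the boundary of the fine region (a consequence of `Marks.Ok`) -/
def CycOk (m : S.Marks) (n : ℕ) (s : S.Q × Bool → ℕ) (σ : Fin 4 → ℕ) : Prop :=
  Cyc4 (plane.glue (S.T n s)) (m.e n σ)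

/-! ### the observable -/

section obs
variable {S} (m : S.Marks) (n : ℕ)

/-- shifts of the walls and of the marks -/
abbrev Sh (S : Shape) (n : ℕ) := (S.Q × Bool → Fin (n / 4)) × (Fin 4 → Fin (n / 4))

/-- the shifts of the walls -/
def Sh.s {S : Shape} {n : ℕ} (a : Sh S n) : S.Q × Bool → ℕ := fun v => (a.1 v : ℕ)
/-- the shifts of the marks -/
def Sh.σ {S : Shape} {n : ℕ} (a : Sh S n) : Fin 4 → ℕ := fun j => (a.2 j : ℕ)

/-- `w` is the closed wall with the ends `z`, `e 0`, `e 1`, `e 2` -/
def IsWz (q : S.Q) (x y : ℤ) (a : Sh S n) (w : Half ZT → Half ZT) : Prop :=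
  IsW (S.zT n a.s q y) (S.zg n a.s q x y) ({zz x y} ∪ Set.range fun j : Fin 3 => m.ez n a.σ q j.castSucc) w

open Classical in
/-- the observable for given shifts -/
noncomputable def Fz (q : S.Q) (x y : ℤ) (a : Sh S n) : ℂ :=
  if h : ∃ w, IsWz m n q x y a w then
    obs (S.zT n a.s q y) h.choose (zz x y) fun j => m.ez n a.σ q j.castSucc
  else 0

open Classical in
/-- the average of a function over the shifts which satisfy `p` -/
noncomputable def avSh (p : Sh S n → Prop) (f : Sh S n → ℂ) : ℂ :=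
  (∑ a : Sh S n, if p a then f a else 0) / ((Finset.univ.filter p).card : ℂ)

/-- the averaged observable, the end `z = (x, y)` in the room `q` -/
noncomputable def Fav (q : S.Q) (x y : ℤ) : ℂ := avSh n (fun a => ∃ w, IsWz m n q x y a w) (Fz m n q x y)

open Classical in
/-- **the observable** as a function of the coarse point `z` -/
noncomputable def F (z : ℂ) : ℂ :=
  if h : ∃ q : S.Q, ((S.xl q : ℝ) < z.re ∧ z.re < S.xr q) ∧ (S.yb q : ℝ) ≤ z.im ∧ z.im < S.yt q then
    Fav m n h.choose ⌊n * z.re⌋ (min (⌊n * z.im⌋ + 1) (S.ft n h.choose - 1))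
  else 0

/-- `w` is the closed wall of the fine region with the four marks as ends -/
def IsW4 (a : Sh S n) (w : Half (ℤ × ℤ) → Half (ℤ × ℤ)) : Prop :=
  IsW (S.T n a.s) (plane.glue (S.T n a.s)) (Set.range (m.e n a.σ)) w

open Classical in
/-- probability that the strand of the fourth mark ends at the mark `0`, for given shifts -/
noncomputable def P4 (a : Sh S n) : ℝ :=
  if h : ∃ w, IsW4 m n a w then
    Pool.Agent.Helper69.RSW.P (S.T n a.s) fun ω => other (mate ω) h.choose (m.e n a.σ 3) = m.e n a.σ 0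
  else 0

/-- the averaged probability that the strand of the fourth mark ends at the mark `0` -/
noncomputable def p4 : ℝ := (avSh n (fun a => ∃ w, IsW4 m n a w) fun a => (P4 m n a : ℂ)).re

end obs

/-! ### regions of the coarse domain -/

section deep
variable (S : Shape)

/-- points at distance at least one from the boundary -/
def Deep (z : ℂ) : Prop := Metric.closedBall z 1 ⊆ S.dom

/-- every row has dead ends of depth `A` times its height on both sides: no opening and no mark there -/
def Chan (m : S.Marks) (A : ℝ) : Prop :=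
  (∀ k r b, S.Att k r b → (S.xl (.inl r) : ℝ) + A * (S.yt (.inl r) - S.yb (.inl r)) ≤ S.xl (.inr k) ∧
    (S.xr (.inr k) : ℝ) + A * (S.yt (.inl r) - S.yb (.inl r)) ≤ S.xr (.inl r)) ∧
  ∀ j, (S.xl (.inl (m.room j)) : ℝ) + A * (S.yt (.inl (m.room j)) - S.yb (.inl (m.room j))) ≤ m.x j ∧
    (m.x j + 1 : ℝ) + A * (S.yt (.inl (m.room j)) - S.yb (.inl (m.room j))) ≤ S.xr (.inl (m.room j))

/-- the part of the row `r` where the engine works -/
def mid (r : S.R) (A κ : ℝ) : Set ℂ :=
  {z | (S.xl (.inl r) + A * (S.yt (.inl r) - S.yb (.inl r)) ≤ z.re ∧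
      z.re ≤ S.xr (.inl r) - A * (S.yt (.inl r) - S.yb (.inl r))) ∧
    ((S.yb (.inl r) + κ : ℝ) ≤ z.im ∧ z.im ≤ S.yt (.inl r) - κ)}

end deep

end Shape
end Full
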