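import Pool.Agent.Full.Def.Inst

/-!
# Domains with an interior end in two sheets

A point `z` of the row rectangle `[l, r) x [b, t)` of a plane region is described by two sheets: the lower
sheet contains the part `L` of the region which is attached to the floor of the rectangle and the rows
`j < y` of the rectangle, which have one tile more; the upper sheet contains the part `U` which is
attached to the ceiling and the rows `j ≥ y`.  The sheets are glued along the line `y`; the upper side of
the lower tile at the abscissa `x` is left over: it is the end `z`.  The rows may be closed to cylinders.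
-/

set_option autoImplicit false

namespace Full
open Function Relation

/-- tiles of the two sheets: `inl` lower sheet, `inr` upper sheet -/
abbrev ZT := (ℤ × ℤ) ⊕ (ℤ × ℤ)

/-- the right neighbours: the rows `b ≤ j < y` of the lower sheet are closed between the columns `l` and
`r`, the rows `y ≤ j < t` of the upper sheet between the columns `l` and `r - 1` -/
def zr (l r y b t : ℤ) : ZT ≃. ZT where
  toFun
    | .inl (i, j) => if b ≤ j ∧ j < y then
        (if i = r then some (.inl (l, j)) else if i = l - 1 then none else some (.inl (i + 1, j)))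
        else some (.inl (i + 1, j))
    | .inr (i, j) => if y ≤ j ∧ j < t then
        (if i = r - 1 then some (.inr (l, j)) else if i = l - 1 then none else some (.inr (i + 1, j)))
        else some (.inr (i + 1, j))
  invFun
    | .inl (i, j) => if b ≤ j ∧ j < y then
        (if i = l then some (.inl (r, j)) else if i = r + 1 then none else some (.inl (i - 1, j)))
        else some (.inl (i - 1, j))
    | .inr (i, j) => if y ≤ j ∧ j < t then
        (if i = l then some (.inr (r - 1, j)) else if i = r then none else some (.inr (i - 1, j)))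
        else some (.inr (i - 1, j))
  inv := by
    rintro (⟨i, j⟩ | ⟨i, j⟩) (⟨i', j'⟩ | ⟨i', j'⟩) <;> dsimp only <;>
      split_ifs <;> simp <;> omega

/-- the upper neighbours: plane in each sheet; across the line `y` the lower tile `(i, y - 1)` is below
the upper tile `(i, y)` for `i < x` and below `(i - 1, y)` for `i > x`, for `l ≤ i ≤ r` -/
def zu (l r x y : ℤ) : ZT ≃. ZT where
  toFun
    | .inl (i, j) => if j = y - 1 ∧ l ≤ i ∧ i ≤ r then
        (if i < x ∧ i < r then some (.inr (i, y)) else if x < i ∧ l < i then some (.inr (i - 1, y))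
          else none)
        else some (.inl (i, j + 1))
    | .inr (i, j) => if j = y - 1 ∧ l ≤ i ∧ i < r then none else some (.inr (i, j + 1))
  invFun
    | .inl (i, j) => if j = y ∧ l ≤ i ∧ i ≤ r then none else some (.inl (i, j - 1))
    | .inr (i, j) => if j = y ∧ l ≤ i ∧ i < r then
        (if i < x then some (.inl (i, y - 1)) else some (.inl (i + 1, y - 1)))
        else some (.inr (i, j - 1))
  inv := by
    rintro (⟨i, j⟩ | ⟨i, j⟩) (⟨i', j'⟩ | ⟨i', j'⟩) <;> dsimp only <;>
      split_ifs <;> simp <;> omega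

/-- the two sheets glued along the line `y` with a gap at the abscissa `x`; the rows `b ≤ j < y` of the
lower and `y ≤ j < t` of the upper sheet are closed to cylinders -/
def zsurf (l r x y b t : ℤ) : Surf ZT := ⟨zr l r y b t, zu l r x y⟩

/-- a box of tiles -/
noncomputable def box (a b c d : ℤ) : Finset (ℤ × ℤ) := Finset.Ico a b ×ˢ Finset.Ico c d

lemma mem_box {a b c d i j : ℤ} : (i, j) ∈ box a b c d ↔ (a ≤ i ∧ i < b) ∧ c ≤ j ∧ j < d := by
  unfold box
  rw [Finset.mem_product, Finset.mem_Ico, Finset.mem_Ico]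

/-- a domain with the row rectangle `[l, r) x [b, t)`: `L` is the part below, drawn with one column
more, `U` the part above -/
structure Slab where
  L : Finset (ℤ × ℤ)
  U : Finset (ℤ × ℤ)
  l : ℤ
  r : ℤ
  b : ℤ
  t : ℤ
  hlr : l < r
  hL : ∀ i j, l - 1 ≤ i → i ≤ r + 1 → b ≤ j → j ≤ t → (i, j) ∉ L
  hU : ∀ i j, l - 1 ≤ i → i ≤ r → b - 1 ≤ j → j < t → (i, j) ∉ U

namespace Slab
variable (D : Slab) (x y : ℤ)

/-- the tiles of the lower sheet -/
noncomputable def TL : Finset (ℤ × ℤ) := D.L ∪ box D.l (D.r + 1) D.b y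

/-- the tiles of the upper sheet -/
noncomputable def TU : Finset (ℤ × ℤ) := D.U ∪ box D.l D.r y D.t

/-- the tiles -/
noncomputable def T : Finset ZT := (D.TL y).disjSum (D.TU y)

/-- the gluing of the domain with the end `z = (x, y)` -/
noncomputable def go : Half ZT → Half ZT := (zsurf D.l D.r x y y y).glue (D.T y)

/-- the gluing of the surface with closed rows -/
noncomputable def gc : Half ZT → Half ZT := (zsurf D.l D.r x y D.b D.t).glue (D.T y)

/-- the interior end -/
def z : Half ZT := (Sum.inl (x, y - 1), Dir.N)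

variable {D x y} {i j : ℤ}

lemma mem_low : (Sum.inl (i, j) : ZT) ∈ D.T y ↔
    (i, j) ∈ D.L ∨ ((D.l ≤ i ∧ i ≤ D.r) ∧ D.b ≤ j ∧ j < y) := by
  unfold T TL
  rw [Finset.inl_mem_disjSum, Finset.mem_union, mem_box, Int.lt_add_one_iff]

lemma mem_up : (Sum.inr (i, j) : ZT) ∈ D.T y ↔
    (i, j) ∈ D.U ∨ ((D.l ≤ i ∧ i < D.r) ∧ y ≤ j ∧ j < D.t) := by
  unfold T TU
  rw [Finset.inr_mem_disjSum, Finset.mem_union, mem_box]

theorem glu_go : Glu (D.T y) (D.go x y) := Surf.glu _ _
theorem glu_gc : Glu (D.T y) (D.gc x y) := Surf.glu _ _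
theorem straight_go : Straight (D.go x y) := Surf.straight_glue _ _
theorem straight_gc : Straight (D.gc x y) := Surf.straight_glue _ _

end Slab

/-! #### neighbours -/

section nb
variable {l r x y b t i j : ℤ}

lemma zs_N_low (h : ¬ (j = y - 1 ∧ l ≤ i ∧ i ≤ r)) :
    (zsurf l r x y b t).nb .N (.inl (i, j)) = some (.inl (i, j + 1)) := by
  show (if j = y - 1 ∧ l ≤ i ∧ i ≤ r then _ else some (Sum.inl (i, j + 1))) = _
  rw [if_neg h]

lemma zs_N_left (h1 : l ≤ i) (h2 : i < x) (h3 : i < r) :
    (zsurf l r x y b t).nb .N (.inl (i, y - 1)) = some (.inr (i, y)) := by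
  show (if y - 1 = y - 1 ∧ l ≤ i ∧ i ≤ r then (if i < x ∧ i < r then some (Sum.inr (i, y)) else
    if x < i ∧ l < i then some (Sum.inr (i - 1, y)) else none) else some (Sum.inl (i, y - 1 + 1))) = _
  rw [if_pos ⟨rfl, h1, h3.le⟩, if_pos ⟨h2, h3⟩]

lemma zs_N_right (h1 : l < i) (h2 : x < i) (h3 : i ≤ r) :
    (zsurf l r x y b t).nb .N (.inl (i, y - 1)) = some (.inr (i - 1, y)) := by
  show (if y - 1 = y - 1 ∧ l ≤ i ∧ i ≤ r then (if i < x ∧ i < r then some (Sum.inr (i, y)) else
    if x < i ∧ l < i then some (Sum.inr (i - 1, y)) else none) else some (Sum.inl (i, y - 1 + 1))) = _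
  rw [if_pos ⟨rfl, h1.le, h3⟩, if_neg (by omega), if_pos ⟨h2, h1⟩]

lemma zs_N_z (h1 : l ≤ x) (h2 : x ≤ r) :
    (zsurf l r x y b t).nb .N (.inl (x, y - 1)) = none := by
  show (if y - 1 = y - 1 ∧ l ≤ x ∧ x ≤ r then (if x < x ∧ x < r then some (Sum.inr (x, y)) else
    if x < x ∧ l < x then some (Sum.inr (x - 1, y)) else none) else some (Sum.inl (x, y - 1 + 1))) = _
  rw [if_pos ⟨rfl, h1, h2⟩, if_neg (by omega), if_neg (by omega)]

lemma zs_N_up (h : ¬ (j = y - 1 ∧ l ≤ i ∧ i < r)) :
    (zsurf l r x y b t).nb .N (.inr (i, j)) = some (.inr (i, j + 1)) := by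
  show (if j = y - 1 ∧ l ≤ i ∧ i < r then none else some (Sum.inr (i, j + 1))) = _
  rw [if_neg h]

lemma zs_N_up_none (h : j = y - 1 ∧ l ≤ i ∧ i < r) :
    (zsurf l r x y b t).nb .N (.inr (i, j)) = none := by
  show (if j = y - 1 ∧ l ≤ i ∧ i < r then none else some (Sum.inr (i, j + 1))) = _
  rw [if_pos h]

lemma zs_S_low (h : ¬ (j = y ∧ l ≤ i ∧ i ≤ r)) :
    (zsurf l r x y b t).nb .S (.inl (i, j)) = some (.inl (i, j - 1)) := by
  show (if j = y ∧ l ≤ i ∧ i ≤ r then none else some (Sum.inl (i, j - 1))) = _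
  rw [if_neg h]

lemma zs_S_up (h : ¬ (j = y ∧ l ≤ i ∧ i < r)) :
    (zsurf l r x y b t).nb .S (.inr (i, j)) = some (.inr (i, j - 1)) := by
  show (if j = y ∧ l ≤ i ∧ i < r then (if i < x then some (Sum.inl (i, y - 1)) else
    some (Sum.inl (i + 1, y - 1))) else some (Sum.inr (i, j - 1))) = _
  rw [if_neg h]

lemma zs_S_left (h1 : l ≤ i) (h2 : i < r) (h3 : i < x) :
    (zsurf l r x y b t).nb .S (.inr (i, y)) = some (.inl (i, y - 1)) := by
  show (if y = y ∧ l ≤ i ∧ i < r then (if i < x then some (Sum.inl (i, y - 1)) else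
    some (Sum.inl (i + 1, y - 1))) else some (Sum.inr (i, y - 1))) = _
  rw [if_pos ⟨rfl, h1, h2⟩, if_pos h3]

lemma zs_S_right (h1 : l ≤ i) (h2 : i < r) (h3 : x ≤ i) :
    (zsurf l r x y b t).nb .S (.inr (i, y)) = some (.inl (i + 1, y - 1)) := by
  show (if y = y ∧ l ≤ i ∧ i < r then (if i < x then some (Sum.inl (i, y - 1)) else
    some (Sum.inl (i + 1, y - 1))) else some (Sum.inr (i, y - 1))) = _
  rw [if_pos ⟨rfl, h1, h2⟩, if_neg (by omega)]

lemma zs_E_low_open (h : ¬ (b ≤ j ∧ j < y)) :
    (zsurf l r x y b t).nb .E (.inl (i, j)) = some (.inl (i + 1, j)) := by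
  show (if b ≤ j ∧ j < y then _ else some (Sum.inl (i + 1, j))) = _
  rw [if_neg h]

lemma zs_E_low (h : i ≠ r) (h' : i ≠ l - 1) :
    (zsurf l r x y b t).nb .E (.inl (i, j)) = some (.inl (i + 1, j)) := by
  show (if b ≤ j ∧ j < y then (if i = r then some (Sum.inl (l, j)) else if i = l - 1 then none else
    some (Sum.inl (i + 1, j))) else some (Sum.inl (i + 1, j))) = _
  rw [if_neg h, if_neg h', ite_self]

lemma zs_E_low_end (h : b ≤ j ∧ j < y) :
    (zsurf l r x y b t).nb .E (.inl (r, j)) = some (.inl (l, j)) := by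
  show (if b ≤ j ∧ j < y then (if r = r then some (Sum.inl (l, j)) else if r = l - 1 then none else
    some (Sum.inl (r + 1, j))) else some (Sum.inl (r + 1, j))) = _
  rw [if_pos h, if_pos rfl]

lemma zs_E_up_open (h : ¬ (y ≤ j ∧ j < t)) :
    (zsurf l r x y b t).nb .E (.inr (i, j)) = some (.inr (i + 1, j)) := by
  show (if y ≤ j ∧ j < t then _ else some (Sum.inr (i + 1, j))) = _
  rw [if_neg h]

lemma zs_E_up (h : i ≠ r - 1) (h' : i ≠ l - 1) :
    (zsurf l r x y b t).nb .E (.inr (i, j)) = some (.inr (i + 1, j)) := by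
  show (if y ≤ j ∧ j < t then (if i = r - 1 then some (Sum.inr (l, j)) else if i = l - 1 then none else
    some (Sum.inr (i + 1, j))) else some (Sum.inr (i + 1, j))) = _
  rw [if_neg h, if_neg h', ite_self]

lemma zs_E_up_end (h : y ≤ j ∧ j < t) :
    (zsurf l r x y b t).nb .E (.inr (r - 1, j)) = some (.inr (l, j)) := by
  show (if y ≤ j ∧ j < t then (if r - 1 = r - 1 then some (Sum.inr (l, j)) else if r - 1 = l - 1 then
    none else some (Sum.inr (r - 1 + 1, j))) else some (Sum.inr (r - 1 + 1, j))) = _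
  rw [if_pos h, if_pos rfl]

end nb

end Full
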