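import Pool.Agent.Full.Def.Surf

/-!
# The plane, cuts, combs, closed rows

`plane` is the plane of unit squares.  `S.cut C` removes the links above the tiles of `C`.  `comb T H A`
is the plane with horizontal slits at the heights divisible by `H`, except above and below the tiles
which are at distance more than `A` from the ends of their rows in `T`.  `hclose T g` closes every row
of the region `(T, g)` to a cylinder.
-/

set_option autoImplicit false

namespace Full
open Function Relation

/-! ### the plane -/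

/-- the unit vector of a direction -/
def Dir.vec : Dir → ℤ × ℤ
  | .E => (1, 0) | .N => (0, 1) | .W => (-1, 0) | .S => (0, -1)

lemma Dir.vec_opp (d : Dir) : d.opp.vec = -d.vec := by cases d <;> rfl

/-- the plane of unit squares; the tile `(i, j)` has the lower left corner `(i, j)` -/
def plane : Surf (ℤ × ℤ) where
  r := (Equiv.prodCongr (Equiv.addRight (1 : ℤ)) (Equiv.refl ℤ)).toPEquiv
  u := (Equiv.prodCongr (Equiv.refl ℤ) (Equiv.addRight (1 : ℤ))).toPEquiv

lemma nb_plane (d : Dir) (t : ℤ × ℤ) : plane.nb d t = some (t + d.vec) := by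
  obtain ⟨i, j⟩ := t
  cases d <;> simp [Surf.nb, plane, Dir.vec, Equiv.toPEquiv_apply,
    ← Equiv.toPEquiv_symm]

lemma plane_glue (T : Finset (ℤ × ℤ)) (t : ℤ × ℤ) (d : Dir) :
    plane.glue T (t, d) = if t ∈ T ∧ t + d.vec ∈ T then (t + d.vec, d.opp) else (t, d) := by
  unfold Surf.glue
  rw [nb_plane]

/-! ### cuts -/

section cut
variable {τ : Type*}
open Classical in
/-- remove the links above the tiles of `C` -/
noncomputable def Surf.cut (S : Surf τ) (C : Set τ) : Surf τ where
  r := S.r
  u := (PEquiv.ofSet Cᶜ).trans S.u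

lemma Surf.mem_cut_N {S : Surf τ} {C : Set τ} {t t' : τ} :
    t' ∈ (S.cut C).nb .N t ↔ t ∉ C ∧ t' ∈ S.nb .N t := by
  classical
  show t' ∈ (PEquiv.ofSet Cᶜ).trans S.u t ↔ t ∉ C ∧ t' ∈ S.u t
  rw [PEquiv.mem_trans]
  constructor
  · rintro ⟨a, h1, h2⟩
    rw [PEquiv.mem_ofSet_iff] at h1
    obtain ⟨h1, h3⟩ := h1
    subst h1
    exact ⟨h3, h2⟩
  · rintro ⟨h1, h2⟩
    exact ⟨t, by rw [PEquiv.mem_ofSet_iff]; exact ⟨rfl, h1⟩, h2⟩

lemma Surf.mem_cut_S {S : Surf τ} {C : Set τ} {t t' : τ} :
    t' ∈ (S.cut C).nb .S t ↔ t' ∉ C ∧ t' ∈ S.nb .S t := by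
  rw [Surf.mem_nb, Surf.mem_nb (S := S)]
  exact Surf.mem_cut_N

lemma Surf.cut_E {S : Surf τ} {C : Set τ} {t : τ} : (S.cut C).nb .E t = S.nb .E t := rfl

lemma Surf.cut_W {S : Surf τ} {C : Set τ} {t : τ} : (S.cut C).nb .W t = S.nb .W t := rfl

end cut

/-- the tiles above which the comb has a slit -/
def slits (T : Finset (ℤ × ℤ)) (H A : ℕ) : Set (ℤ × ℤ) :=
  {t | (H : ℤ) ∣ t.2 + 1 ∧ ∃ e : ℤ, |e| ≤ A ∧ ((t.1 + e, t.2) ∉ T ∨ (t.1 + e, t.2 + 1) ∉ T)}

/-- the comb: horizontal slits at the heights divisible by `H`, of length `A` from the ends of the rows -/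
noncomputable def comb (T : Finset (ℤ × ℤ)) (H A : ℕ) : Surf (ℤ × ℤ) := plane.cut (slits T H A)

/-! ### closed rows -/

section rows
variable {τ : Type*}

/-- the opposite side of the same tile -/
def opm (x : Half τ) : Half τ := (x.1, x.2.opp)

@[simp] lemma opm_fst (x : Half τ) : (opm x).1 = x.1 := rfl
@[simp] lemma opm_snd (x : Half τ) : (opm x).2 = x.2.opp := rfl

lemma Glu.two_opm {T : Finset τ} {g : Half τ → Half τ} (hG : Glu T g) : Two opm g :=
  ⟨fun x => Prod.ext rfl (Dir.opp_opp _), fun x h => Dir.opp_ne _ (congrArg Prod.snd h), hG.inv⟩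

lemma Glu.periodic_opm {T : Finset τ} {g : Half τ → Half τ} (hG : Glu T g) (x : Half τ) :
    x ∈ periodicPts (g ∘ opm) := by
  by_cases hx : x.1 ∈ T
  · exact periodic_of_finite hG.two_opm.inj (finite_half T) (fun y hy => hG.mem _ hy) hx
  · refine ⟨2, by norm_num, ?_⟩
    have h1 : g (opm x) = opm x := hG.out (opm x) hx
    show g (opm (g (opm x))) = x
    rw [h1, hG.two_opm.m_inv, hG.out x hx]

/-- the other end of the row (or column) which starts at a boundary half edge -/
noncomputable def across (g : Half τ → Half τ) (x : Half τ) : Half τ := other opm g x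

namespace Glu
variable {T : Finset τ} {g : Half τ → Half τ} (hG : Glu T g)
include hG

lemma across_bd {x : Half τ} (h : Bd T g x) : Bd T g (across g x) := by
  refine ⟨?_, hG.two_opm.other_fix h.2 (hG.periodic_opm x)⟩
  have key : ∀ k, ((g ∘ opm)^[k] x).1 ∈ T := by
    intro k
    induction k with
    | zero => exact h.1
    | succ k ih => rw [iterate_succ_apply']; exact hG.mem _ ih
  exact key _

lemma across_across {x : Half τ} (h : Bd T g x) : across g (across g x) = x :=
  hG.two_opm.other_other h.2 (hG.periodic_opm x)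

/-- the last tile of the row is left through the opposite side -/
lemma across_snd (hs : Straight g) {x : Half τ} (h : Bd T g x) : (across g x).2 = x.2.opp := by
  have h2 := hG.two_opm
  have hp := hG.periodic_opm x
  have key : ∀ k, k < minimalPeriod (g ∘ opm) x / 2 → ((g ∘ opm)^[k] x).2 = x.2 := by
    intro k
    induction k with
    | zero => intro _; rfl
    | succ k ih =>
      intro hk
      have h3 := ih (by omega)
      have h4 := h2.inner h.2 hp (k := k + 1) (by omega) hk
      rw [iterate_succ_apply'] at h4 ⊢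
      have h5 : g (opm ((g ∘ opm)^[k] x)) ≠ opm ((g ∘ opm)^[k] x) := by
        intro h6
        apply h4
        show g (g (opm ((g ∘ opm)^[k] x))) = g (opm ((g ∘ opm)^[k] x))
        rw [h6, h6]
      have h6 := hs _ h5
      show (g (opm ((g ∘ opm)^[k] x))).2 = x.2
      rw [h6, opm_snd, Dir.opp_opp, h3]
  have hpos := Two.period_pos hp
  have h0 := h2.even h.2 hp
  have h3 := key (minimalPeriod (g ∘ opm) x / 2 - 1) (by omega)
  have h4 := h2.m_last h.2 hp
  show (other opm g x).2 = x.2.opp
  rw [← h4, opm_snd, h3]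

end Glu

/-- horizontal directions -/
def Dir.hor : Dir → Bool
  | .E => true | .W => true | .N => false | .S => false

@[simp] lemma Dir.hor_opp (d : Dir) : d.opp.hor = d.hor := by cases d <;> rfl

open Classical in
/-- close every row of the region to a cylinder -/
noncomputable def hclose (T : Finset τ) (g : Half τ → Half τ) (x : Half τ) : Half τ :=
  if Bd T g x ∧ x.2.hor = true then across g x else g x

lemma hclose_of_bd {T : Finset τ} {g : Half τ → Half τ} {x : Half τ} (h : Bd T g x)
    (h2 : x.2.hor = true) : hclose T g x = across g x := by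
  unfold hclose
  rw [if_pos ⟨h, h2⟩]

lemma hclose_of_not {T : Finset τ} {g : Half τ → Half τ} {x : Half τ}
    (h : ¬ (Bd T g x ∧ x.2.hor = true)) : hclose T g x = g x := by
  unfold hclose
  rw [if_neg h]

theorem Glu.ext_hclose {T : Finset τ} {g : Half τ → Half τ} (hG : Glu T g) (hs : Straight g) :
    Ext T g (hclose T g) := by
  have key : ∀ x, hclose T g (hclose T g x) = x := by
    intro x
    by_cases h : Bd T g x ∧ x.2.hor = true
    · rw [hclose_of_bd h.1 h.2, hclose_of_bd (hG.across_bd h.1) (by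
        rw [hG.across_snd hs h.1, Dir.hor_opp]; exact h.2), hG.across_across h.1]
    · rw [hclose_of_not h]
      by_cases h1 : g x = x
      · rw [h1, hclose_of_not h, h1]
      · rw [hclose_of_not, hG.inv]
        rintro ⟨⟨-, h3⟩, -⟩
        rw [hG.inv] at h3
        exact h1 h3.symm
  refine ⟨⟨key, fun x hx => ?_, fun x hx => ?_⟩, fun x hx => ?_⟩
  · by_cases h : Bd T g x ∧ x.2.hor = true
    · rw [hclose_of_bd h.1 h.2]; exact (hG.across_bd h.1).1
    · rw [hclose_of_not h]; exact hG.mem _ hx
  · rw [hclose_of_not (fun h => hx h.1.1)]; exact hG.out _ hx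
  · exact hclose_of_not (fun h => hx h.1.2)

theorem Glu.straight_hclose {T : Finset τ} {g : Half τ → Half τ} (hG : Glu T g) (hs : Straight g) :
    Straight (hclose T g) := by
  intro x hx
  by_cases h : Bd T g x ∧ x.2.hor = true
  · rw [hclose_of_bd h.1 h.2]; exact hG.across_snd hs h.1
  · rw [hclose_of_not h] at hx ⊢; exact hs x hx

/-- after closing the rows all walls are horizontal -/
theorem Glu.hclose_wall {T : Finset τ} {g : Half τ → Half τ} (hG : Glu T g) (hs : Straight g)
    {x : Half τ} (h : Bd T (hclose T g) x) : x.2.hor = false := by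
  by_contra h1
  have h1 : x.2.hor = true := by simpa using h1
  by_cases h2 : g x = x
  · have h3 : Bd T g x := ⟨h.1, h2⟩
    have h4 := h.2
    rw [hclose_of_bd h3 h1] at h4
    have h5 := hG.across_snd hs h3
    rw [h4] at h5
    exact Dir.opp_ne _ h5.symm
  · have h3 := h.2
    rw [hclose_of_not (fun h4 => h2 h4.1.2)] at h3
    exact h2 h3

theorem Glu.hclose_bd_iff {T : Finset τ} {g : Half τ → Half τ} (hG : Glu T g) (hs : Straight g)
    {x : Half τ} : Bd T (hclose T g) x ↔ Bd T g x ∧ x.2.hor = false := by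
  constructor
  · intro h
    have h1 := hG.hclose_wall hs h
    refine ⟨⟨h.1, ?_⟩, h1⟩
    have h2 := h.2
    rwa [hclose_of_not (fun h4 => by rw [h1] at h4; exact absurd h4.2 (by decide))] at h2
  · rintro ⟨h1, h2⟩
    refine ⟨h1.1, ?_⟩
    rw [hclose_of_not (fun h4 => by rw [h2] at h4; exact absurd h4.2 (by decide))]
    exact h1.2

end rows

end Full
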