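import Pool.Agent.Full.Def.Inst

/-!
# Insertion of a half column

`ins g c up` inserts the tiles `inr j` between the tile `c j` and its left neighbour; they are glued
to each other vertically according to `up`.  For the column below a point of the plane the upper side
of the highest new tile is the interior end `z`.
-/

set_option autoImplicit false

namespace Full
open Function Relation

variable {τ κ : Type*}

/-- the half edges of the old tiles -/
def old (x : Half τ) : Half (τ ⊕ κ) := (Sum.inl x.1, x.2)

lemma old_inj : Injective (old : Half τ → Half (τ ⊕ κ)) := by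
  rintro ⟨t, d⟩ ⟨t', d'⟩ h
  have h1 : (Sum.inl t : τ ⊕ κ) = Sum.inl t' := congrArg Prod.fst h
  have h2 : d = d' := congrArg Prod.snd h
  rw [Sum.inl.inj h1, h2]

@[simp] lemma old_inj_iff {x y : Half τ} : (old x : Half (τ ⊕ κ)) = old y ↔ x = y := old_inj.eq_iff

@[simp] lemma old_snd (x : Half τ) : (old x : Half (τ ⊕ κ)).2 = x.2 := rfl

/-- insertion of the tiles `inr j` to the left of the tiles `c j`, with the vertical links `up` -/
def ins (g : Half τ → Half τ) (c : κ ≃. τ) (up : κ ≃. κ) : Half (τ ⊕ κ) → Half (τ ⊕ κ)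
  | (.inl t, d) =>
    match (if d = .W then c.symm t else none) with
    | some j => (.inr j, .E)
    | none =>
      match (if d = .E ∧ (g (t, d)).2 = .W then c.symm (g (t, d)).1 else none) with
      | some j => (.inr j, .W)
      | none => old (g (t, d))
  | (.inr j, .E) =>
    match c j with
    | some t => (.inl t, .W)
    | none => (.inr j, .E)
  | (.inr j, .W) =>
    match c j with
    | some t => if (g (t, .W)).2 = .W then (.inr j, .W) else old (g (t, .W))
    | none => (.inr j, .W)
  | (.inr j, .N) =>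
    match up j with
    | some j' => (.inr j', .S)
    | none => (.inr j, .N)
  | (.inr j, .S) =>
    match up.symm j with
    | some j' => (.inr j', .N)
    | none => (.inr j, .S)

section
variable {g : Half τ → Half τ} {c : κ ≃. τ} {up : κ ≃. κ}

/-- the right side of a new tile -/
lemma ins_E {j : κ} {t : τ} (h : t ∈ c j) : ins g c up (.inr j, .E) = (.inl t, .W) := by
  rw [Option.mem_def] at h
  simp only [ins, h]

/-- the left side of a tile of the column -/
lemma ins_colW {j : κ} {t : τ} (h : t ∈ c j) : ins g c up (.inl t, .W) = (.inr j, .E) := by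
  rw [← c.mem_iff_mem, Option.mem_def] at h
  simp only [ins, h, if_true]

/-- the left side of a new tile, at a left wall -/
lemma ins_W_fix {j : κ} {t : τ} (h : t ∈ c j) (h1 : g (t, .W) = (t, .W)) :
    ins g c up (.inr j, .W) = (.inr j, .W) := by
  rw [Option.mem_def] at h
  simp only [ins, h, h1, if_true]

/-- the left side of a new tile -/
lemma ins_W (hs : Straight g) {j : κ} {t : τ} (h : t ∈ c j) (h1 : g (t, .W) ≠ (t, .W)) :
    ins g c up (.inr j, .W) = old (g (t, .W)) := by
  rw [Option.mem_def] at h
  have h2 : (g (t, .W)).2 = Dir.E := hs _ h1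
  simp only [ins, h, h2]
  rw [if_neg (by decide)]

/-- the right side of the left neighbour of a tile of the column -/
lemma ins_left (hs : Straight g) {j : κ} {t : τ} (h : t ∈ c j) {x : Half τ} (hx : g x = (t, .W))
    (hne : x ≠ (t, .W)) : ins g c up (old x) = (.inr j, .W) := by
  rw [← c.mem_iff_mem, Option.mem_def] at h
  obtain ⟨t', d⟩ := x
  have h1 : g (t', d) ≠ (t', d) := by rw [hx]; exact Ne.symm hne
  have h2 := hs _ h1
  rw [hx] at h2
  have h3 : d = Dir.E := by
    have h4 := congrArg Dir.opp h2
    rw [Dir.opp_opp] at h4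
    exact h4.symm
  subst h3
  simp only [ins, old, hx, h, if_true, and_self]
  rfl

/-- old sides away from the column -/
lemma ins_old {x : Half τ} (h1 : ∀ j t, t ∈ c j → x ≠ (t, .W)) (h2 : ∀ j t, t ∈ c j → g x ≠ (t, .W)) :
    ins g c up (old x) = old (g x) := by
  obtain ⟨t, d⟩ := x
  have h3 : ∀ {t' : τ} {j : κ}, c.symm t' = some j → t' ∈ c j := fun h =>
    (c.mem_iff_mem).1 (Option.mem_def.2 h)
  have h4 : (if d = Dir.W then c.symm t else none) = none := by
    split_ifs with h
    · rw [Option.eq_none_iff_forall_not_mem]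
      intro j hj
      exact h1 j t (h3 hj) (by rw [h])
    · rfl
  have h5 : (if d = Dir.E ∧ (g (t, d)).2 = Dir.W then c.symm (g (t, d)).1 else none) = none := by
    split_ifs with h
    · rw [Option.eq_none_iff_forall_not_mem]
      intro j hj
      exact h2 j _ (h3 hj) (Prod.ext rfl h.2)
    · rfl
  simp only [ins, old, h4, h5]

lemma ins_N {j j' : κ} (h : j' ∈ up j) : ins g c up (.inr j, .N) = (.inr j', .S) := by
  rw [Option.mem_def] at h
  simp only [ins, h]

lemma ins_N_none {j : κ} (h : up j = none) : ins g c up (.inr j, .N) = (.inr j, .N) := by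
  simp only [ins, h]

lemma ins_S {j j' : κ} (h : j' ∈ up j) : ins g c up (.inr j', .S) = (.inr j, .N) := by
  rw [← up.mem_iff_mem, Option.mem_def] at h
  simp only [ins, h]

lemma ins_S_none {j : κ} (h : up.symm j = none) : ins g c up (.inr j, .S) = (.inr j, .S) := by
  simp only [ins, h]

lemma ins_E_none {j : κ} (h : c j = none) : ins g c up (.inr j, .E) = (.inr j, .E) := by
  simp only [ins, h]

lemma ins_W_none {j : κ} (h : c j = none) : ins g c up (.inr j, .W) = (.inr j, .W) := by
  simp only [ins, h]

theorem ins_ins {T : Finset τ} (hG : Glu T g) (hs : Straight g) (x : Half (τ ⊕ κ)) :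
    ins g c up (ins g c up x) = x := by
  rcases x with ⟨t | j, d⟩
  · by_cases h1 : ∃ j t', t' ∈ c j ∧ (t, d) = (t', Dir.W)
    · obtain ⟨j, t', h, h2⟩ := h1
      obtain ⟨rfl, rfl⟩ := Prod.mk.inj h2
      rw [ins_colW h, ins_E h]
    · push Not at h1
      by_cases h2 : ∃ j t', t' ∈ c j ∧ g (t, d) = (t', Dir.W)
      · obtain ⟨j, t', h, h3⟩ := h2
        have h4 : (t, d) ≠ (t', Dir.W) := h1 j t' h
        have h5 : g (t', Dir.W) = (t, d) := by rw [← h3, hG.inv]
        rw [show ((Sum.inl t, d) : Half (τ ⊕ κ)) = old (t, d) from rfl, ins_left hs h h3 h4,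
          ins_W hs h (by rw [h5]; exact h4), h5]
      · push Not at h2
        rw [show ((Sum.inl t, d) : Half (τ ⊕ κ)) = old (t, d) from rfl, ins_old h1 h2,
          ins_old h2 (by rw [hG.inv]; exact h1), hG.inv]
  · cases d with
    | E =>
      cases h : c j with
      | none => rw [ins_E_none h, ins_E_none h]
      | some t => rw [ins_E (Option.mem_def.2 h), ins_colW (Option.mem_def.2 h)]
    | W =>
      cases h : c j with
      | none => rw [ins_W_none h, ins_W_none h]
      | some t =>
        have h := Option.mem_def.2 h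
        by_cases h1 : g (t, .W) = (t, .W)
        · rw [ins_W_fix h h1, ins_W_fix h h1]
        · rw [ins_W hs h h1, ins_left hs h (hG.inv _) h1]
    | N =>
      cases h : up j with
      | none => rw [ins_N_none h, ins_N_none h]
      | some j' => rw [ins_N (Option.mem_def.2 h), ins_S (Option.mem_def.2 h)]
    | S =>
      cases h : up.symm j with
      | none => rw [ins_S_none h, ins_S_none h]
      | some j' =>
        have h := up.mem_iff_mem.1 (Option.mem_def.2 h)
        rw [ins_S h, ins_N h]

theorem straight_ins (hs : Straight g) : Straight (ins g c up) := by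
  intro x hx
  rcases x with ⟨t | j, d⟩
  · by_cases h1 : ∃ j t', t' ∈ c j ∧ (t, d) = (t', Dir.W)
    · obtain ⟨j, t', h, h2⟩ := h1
      obtain ⟨rfl, rfl⟩ := Prod.mk.inj h2
      rw [ins_colW h]
      rfl
    · push Not at h1
      by_cases h2 : ∃ j t', t' ∈ c j ∧ g (t, d) = (t', Dir.W)
      · obtain ⟨j, t', h, h3⟩ := h2
        have h4 : (t, d) ≠ (t', Dir.W) := h1 j t' h
        have h5 : (g (t, d)).2 = d.opp := hs _ (by rw [h3]; exact Ne.symm h4)
        rw [show ((Sum.inl t, d) : Half (τ ⊕ κ)) = old (t, d) from rfl, ins_left hs h h3 h4]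
        rw [h3] at h5
        exact h5
      · push Not at h2
        rw [show ((Sum.inl t, d) : Half (τ ⊕ κ)) = old (t, d) from rfl, ins_old h1 h2] at hx ⊢
        exact hs _ (fun h => hx (by rw [h]))
  · cases d with
    | E =>
      cases h : c j with
      | none => rw [ins_E_none h] at hx; exact absurd rfl hx
      | some t => rw [ins_E (Option.mem_def.2 h)]; rfl
    | W =>
      cases h : c j with
      | none => rw [ins_W_none h] at hx; exact absurd rfl hx
      | some t =>
        have h := Option.mem_def.2 h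
        by_cases h1 : g (t, .W) = (t, .W)
        · rw [ins_W_fix h h1] at hx; exact absurd rfl hx
        · rw [ins_W hs h h1]; exact hs _ h1
    | N =>
      cases h : up j with
      | none => rw [ins_N_none h] at hx; exact absurd rfl hx
      | some j' => rw [ins_N (Option.mem_def.2 h)]; rfl
    | S =>
      cases h : up.symm j with
      | none => rw [ins_S_none h] at hx; exact absurd rfl hx
      | some j' => rw [ins_S (up.mem_iff_mem.1 (Option.mem_def.2 h))]; rfl

theorem glu_ins {T : Finset τ} {K : Finset κ} (hG : Glu T g) (hs : Straight g)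
    (hc : ∀ j t, t ∈ c j → j ∈ K ∧ t ∈ T) (hup : ∀ j j', j' ∈ up j → j ∈ K ∧ j' ∈ K) :
    Glu (T.disjSum K) (ins g c up) := by
  have hinl : ∀ t : τ, (Sum.inl t : τ ⊕ κ) ∈ T.disjSum K ↔ t ∈ T := fun t => Finset.inl_mem_disjSum
  have hinr : ∀ j : κ, (Sum.inr j : τ ⊕ κ) ∈ T.disjSum K ↔ j ∈ K := fun j => Finset.inr_mem_disjSum
  refine ⟨ins_ins hG hs, fun x hx => ?_, fun x hx => ?_⟩
  · rcases x with ⟨t | j, d⟩
    · rw [hinl] at hx
      by_cases h1 : ∃ j t', t' ∈ c j ∧ (t, d) = (t', Dir.W)
      · obtain ⟨j, t', h, h2⟩ := h1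
        obtain ⟨rfl, rfl⟩ := Prod.mk.inj h2
        rw [ins_colW h]
        exact (hinr j).2 (hc _ _ h).1
      · push Not at h1
        by_cases h2 : ∃ j t', t' ∈ c j ∧ g (t, d) = (t', Dir.W)
        · obtain ⟨j, t', h, h3⟩ := h2
          rw [show ((Sum.inl t, d) : Half (τ ⊕ κ)) = old (t, d) from rfl, ins_left hs h h3 (h1 j t' h)]
          exact (hinr j).2 (hc _ _ h).1
        · push Not at h2
          rw [show ((Sum.inl t, d) : Half (τ ⊕ κ)) = old (t, d) from rfl, ins_old h1 h2]
          exact (hinl _).2 (hG.mem _ hx)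
    · rw [hinr] at hx
      cases d with
      | E =>
        cases h : c j with
        | none => rw [ins_E_none h]; exact (hinr j).2 hx
        | some t => rw [ins_E (Option.mem_def.2 h)]; exact (hinl t).2 (hc _ _ (Option.mem_def.2 h)).2
      | W =>
        cases h : c j with
        | none => rw [ins_W_none h]; exact (hinr j).2 hx
        | some t =>
          have h := Option.mem_def.2 h
          by_cases h1 : g (t, .W) = (t, .W)
          · rw [ins_W_fix h h1]; exact (hinr j).2 hx
          · rw [ins_W hs h h1]; exact (hinl _).2 (hG.mem _ (hc _ _ h).2)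
      | N =>
        cases h : up j with
        | none => rw [ins_N_none h]; exact (hinr j).2 hx
        | some j' => rw [ins_N (Option.mem_def.2 h)]; exact (hinr _).2 (hup _ _ (Option.mem_def.2 h)).2
      | S =>
        cases h : up.symm j with
        | none => rw [ins_S_none h]; exact (hinr j).2 hx
        | some j' =>
          have h := up.mem_iff_mem.1 (Option.mem_def.2 h)
          rw [ins_S h]; exact (hinr _).2 (hup _ _ h).1
  · rcases x with ⟨t | j, d⟩
    · rw [hinl] at hx
      have h0 : g (t, d) = (t, d) := hG.out _ hx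
      have h1 : ∀ j t', t' ∈ c j → (t, d) ≠ (t', Dir.W) := by
        intro j t' h h2
        obtain ⟨rfl, -⟩ := Prod.mk.inj h2
        exact hx (hc _ _ h).2
      rw [show ((Sum.inl t, d) : Half (τ ⊕ κ)) = old (t, d) from rfl, ins_old h1 (by rw [h0]; exact h1),
        h0]
    · rw [hinr] at hx
      have h1 : c j = none := by
        rw [Option.eq_none_iff_forall_not_mem]
        intro t h
        exact hx (hc _ _ h).1
      have h2 : up j = none := by
        rw [Option.eq_none_iff_forall_not_mem]
        intro t h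
        exact hx (hup _ _ h).1
      have h3 : up.symm j = none := by
        rw [Option.eq_none_iff_forall_not_mem]
        intro t h
        exact hx (hup _ _ (up.mem_iff_mem.1 h)).2
      cases d with
      | E => exact ins_E_none h1
      | W => exact ins_W_none h1
      | N => exact ins_N_none h2
      | S => exact ins_S_none h3

end

/-! ### the half column below a point of the plane -/

/-- the column `c j = (x, j)`, `f ≤ j < b` -/
def col (x f b : ℤ) : ℤ ≃. ℤ × ℤ where
  toFun j := if f ≤ j ∧ j < b then some (x, j) else none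
  invFun t := if t.1 = x ∧ f ≤ t.2 ∧ t.2 < b then some t.2 else none
  inv := by
    rintro j ⟨i, k⟩
    constructor
    · intro h
      split_ifs at h with h1
      · obtain rfl := Option.some.inj h
        obtain ⟨h2, h3⟩ := h1
        dsimp only at h2 h3 ⊢
        rw [if_pos h3, h2]
    · intro h
      split_ifs at h with h1
      · obtain ⟨rfl, rfl⟩ := Prod.mk.inj (Option.some.inj h)
        dsimp only
        rw [if_pos ⟨rfl, h1⟩]

lemma mem_col {x f b j : ℤ} {t : ℤ × ℤ} : t ∈ col x f b j ↔ (f ≤ j ∧ j < b) ∧ t = (x, j) := by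
  show t ∈ (if f ≤ j ∧ j < b then some (x, j) else none) ↔ _
  rw [Option.mem_def]
  split_ifs with h
  · constructor
    · intro h1; exact ⟨h, (Option.some.inj h1).symm⟩
    · rintro ⟨-, rfl⟩; rfl
  · constructor
    · intro h1; exact absurd h1 (by simp)
    · rintro ⟨h1, -⟩; exact absurd h1 h

/-- the vertical links of the half column -/
def upc (f b : ℤ) : ℤ ≃. ℤ where
  toFun j := if f ≤ j ∧ j + 1 < b then some (j + 1) else none
  invFun j := if f ≤ j - 1 ∧ j < b then some (j - 1) else none
  inv := by
    intro j k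
    constructor
    · intro h
      split_ifs at h with h1
      · obtain rfl := Option.some.inj h
        rw [if_pos ⟨h1.1, by omega⟩]
        congr 1
        omega
    · intro h
      split_ifs at h with h1
      · obtain rfl := Option.some.inj h
        rw [if_pos ⟨by omega, h1.2⟩]
        congr 1
        omega

lemma mem_upc {f b j k : ℤ} : k ∈ upc f b j ↔ (f ≤ j ∧ j + 1 < b) ∧ k = j + 1 := by
  show k ∈ (if f ≤ j ∧ j + 1 < b then some (j + 1) else none) ↔ _
  rw [Option.mem_def]
  split_ifs with h
  · constructor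
    · intro h1; exact ⟨h, (Option.some.inj h1).symm⟩
    · rintro ⟨-, rfl⟩; rfl
  · constructor
    · intro h1; exact absurd h1 (by simp)
    · rintro ⟨h1, -⟩; exact absurd h1 h

/-- the tiles of the region with the half column -/
noncomputable abbrev Tz (T : Finset (ℤ × ℤ)) (f b : ℤ) : Finset ((ℤ × ℤ) ⊕ ℤ) := T.disjSum (Finset.Ico f b)

/-- the gluing of the region with the half column left of the tiles `(x, j)`, `f ≤ j < b` -/
def gz (g : Half (ℤ × ℤ) → Half (ℤ × ℤ)) (x f b : ℤ) : Half ((ℤ × ℤ) ⊕ ℤ) → Half ((ℤ × ℤ) ⊕ ℤ) :=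
  ins g (col x f b) (upc f b)

/-- the interior end: the upper side of the highest tile of the half column, at the point `(x, b)` -/
def zend (b : ℤ) : Half ((ℤ × ℤ) ⊕ ℤ) := (Sum.inr (b - 1), Dir.N)

/-- the foot of the half column -/
def foot (f : ℤ) : Half ((ℤ × ℤ) ⊕ ℤ) := (Sum.inr f, Dir.S)

theorem glu_gz {T : Finset (ℤ × ℤ)} {g : Half (ℤ × ℤ) → Half (ℤ × ℤ)} (hG : Glu T g)
    (hs : Straight g) {x f b : ℤ} (h : ∀ j, f ≤ j → j < b → (x, j) ∈ T) :
    Glu (Tz T f b) (gz g x f b) := by
  refine glu_ins hG hs (fun j t ht => ?_) (fun j k hk => ?_)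
  · rw [mem_col] at ht
    exact ⟨Finset.mem_Ico.2 ht.1, by rw [ht.2]; exact h j ht.1.1 ht.1.2⟩
  · rw [mem_upc] at hk
    exact ⟨Finset.mem_Ico.2 ⟨hk.1.1, by omega⟩, Finset.mem_Ico.2 ⟨by omega, by omega⟩⟩

theorem straight_gz {g : Half (ℤ × ℤ) → Half (ℤ × ℤ)} (hs : Straight g) (x f b : ℤ) :
    Straight (gz g x f b) := straight_ins hs

theorem bd_zend {T : Finset (ℤ × ℤ)} (g : Half (ℤ × ℤ) → Half (ℤ × ℤ)) (x : ℤ) {f b : ℤ}
    (h : f < b) : Bd (Tz T f b) (gz g x f b) (zend b) := by
  refine ⟨Finset.inr_mem_disjSum.2 (Finset.mem_Ico.2 ⟨by omega, by omega⟩), ins_N_none ?_⟩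
  rw [Option.eq_none_iff_forall_not_mem]
  intro j hj
  rw [mem_upc] at hj
  omega

theorem bd_foot {T : Finset (ℤ × ℤ)} (g : Half (ℤ × ℤ) → Half (ℤ × ℤ)) (x : ℤ) {f b : ℤ}
    (h : f < b) : Bd (Tz T f b) (gz g x f b) (foot f) := by
  refine ⟨Finset.inr_mem_disjSum.2 (Finset.mem_Ico.2 ⟨le_rfl, h⟩), ins_S_none ?_⟩
  rw [Option.eq_none_iff_forall_not_mem]
  intro j hj
  rw [(upc f b).mem_iff_mem, mem_upc] at hj
  omega

end Full
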