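import Mathlib

/-!
# Two involutions

`m` is an involution without fixed points, `g` an involution.  Every (finite) orbit of the group
generated by `m` and `g` contains no or exactly two fixed points of `g`.  `other m g e` is the second
fixed point of the orbit of the fixed point `e`: the other end of the strand which starts at `e`.
`conn_ext` is the composition rule: fixed points of `g` may be joined later.
-/

set_option autoImplicit false

namespace Full
open Function Relation

variable {α : Type*}

/-- `m` is an involution without fixed points, `g` is an involution -/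
structure Two (m g : α → α) : Prop where
  m_inv : ∀ x, m (m x) = x
  m_ne : ∀ x, m x ≠ x
  g_inv : ∀ x, g (g x) = x

/-- connected by steps of `m` and of `g` -/
def Conn (m g : α → α) : α → α → Prop := ReflTransGen fun x y => y = m x ∨ y = g x

/-- the other end of the strand starting at `e` -/
noncomputable def other (m g : α → α) (e : α) : α :=
  (g ∘ m)^[minimalPeriod (g ∘ m) e / 2] e

namespace Conn
variable {m g : α → α} {x y z : α}

theorem refl (x : α) : Conn m g x x := ReflTransGen.refl

theorem trans (h : Conn m g x y) (h' : Conn m g y z) : Conn m g x z := ReflTransGen.trans h h'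

theorem m_step (x : α) : Conn m g x (m x) := ReflTransGen.single (Or.inl rfl)

theorem g_step (x : α) : Conn m g x (g x) := ReflTransGen.single (Or.inr rfl)

theorem iter (k : ℕ) (x : α) : Conn m g x ((g ∘ m)^[k] x) := by
  induction k with
  | zero => exact refl x
  | succ k ih =>
    rw [iterate_succ_apply']
    exact ih.trans ((m_step _).trans (g_step _))

end Conn

namespace Two
variable {m g : α → α} (h : Two m g)
include h

theorem symm {x y : α} (hc : Conn m g x y) : Conn m g y x := by
  induction hc with
  | refl => exact Conn.refl _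
  | @tail b c _ h2 ih =>
    refine Conn.trans ?_ ih
    rcases h2 with rfl | rfl
    · have := Conn.m_step (m := m) (g := g) (m b)
      rwa [h.m_inv] at this
    · have := Conn.g_step (m := m) (g := g) (g b)
      rwa [h.g_inv] at this

theorem inj : Injective (g ∘ m) := by
  intro x y hxy
  have h1 : m x = m y := by
    rw [← h.g_inv (m x), ← h.g_inv (m y)]
    exact congrArg g hxy
  rw [← h.m_inv x, ← h.m_inv y, h1]

/-- `g T^k` and `T^k` cancel -/
theorem iter_g (k : ℕ) (x : α) : (g ∘ m)^[k] (g ((g ∘ m)^[k] x)) = g x := by
  induction k generalizing x with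
  | zero => rfl
  | succ k ih =>
    rw [iterate_succ_apply (g ∘ m) k x, iterate_succ_apply', ih]
    show g (m (g (g (m x)))) = g x
    rw [h.g_inv, h.m_inv]

theorem iter_m (k : ℕ) (x : α) : (g ∘ m)^[k + 1] (m ((g ∘ m)^[k] x)) = g x := by
  rw [iterate_succ_apply]
  show (g ∘ m)^[k] (g (m (m ((g ∘ m)^[k] x)))) = g x
  rw [h.m_inv]
  exact h.iter_g k x

variable {e : α}

/-- the image of a point of the orbit under `g` -/
theorem g_iter (he : g e = e) {k : ℕ}
    (hk : k ≤ minimalPeriod (g ∘ m) e) :
    g ((g ∘ m)^[k] e) = (g ∘ m)^[minimalPeriod (g ∘ m) e - k] e := by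
  have h1 : (g ∘ m)^[k] (g ((g ∘ m)^[k] e)) = (g ∘ m)^[k] ((g ∘ m)^[minimalPeriod (g ∘ m) e - k] e) := by
    rw [h.iter_g, he, ← iterate_add_apply, show k + (minimalPeriod (g ∘ m) e - k) =
      minimalPeriod (g ∘ m) e by omega, iterate_minimalPeriod]
  exact h.inj.iterate k h1

theorem m_iter (he : g e = e) {k : ℕ}
    (hk : k + 1 ≤ minimalPeriod (g ∘ m) e) :
    m ((g ∘ m)^[k] e) = (g ∘ m)^[minimalPeriod (g ∘ m) e - (k + 1)] e := by
  have h1 : (g ∘ m)^[k + 1] (m ((g ∘ m)^[k] e)) =
      (g ∘ m)^[k + 1] ((g ∘ m)^[minimalPeriod (g ∘ m) e - (k + 1)] e) := by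
    rw [h.iter_m, he, ← iterate_add_apply, show k + 1 + (minimalPeriod (g ∘ m) e - (k + 1)) =
      minimalPeriod (g ∘ m) e by omega, iterate_minimalPeriod]
  exact h.inj.iterate (k + 1) h1

omit h in
theorem period_pos (hp : e ∈ periodicPts (g ∘ m)) : 0 < minimalPeriod (g ∘ m) e :=
  minimalPeriod_pos_of_mem_periodicPts hp

/-- the period is even -/
theorem even (he : g e = e) (hp : e ∈ periodicPts (g ∘ m)) :
    2 * (minimalPeriod (g ∘ m) e / 2) = minimalPeriod (g ∘ m) e := by
  have hpos := period_pos hp
  by_contra hodd
  -- `n = 2 k + 1`: then `m` fixes `T^k e`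
  set n := minimalPeriod (g ∘ m) e with hn
  have h1 := h.m_iter he (k := n / 2) (by omega)
  rw [← hn, show n - (n / 2 + 1) = n / 2 by omega] at h1
  exact h.m_ne _ h1

theorem other_fix (he : g e = e) (hp : e ∈ periodicPts (g ∘ m)) : g (other m g e) = other m g e := by
  have h0 := h.even he hp
  unfold other
  rw [h.g_iter he (by omega)]
  congr 1
  omega

theorem other_ne (he : g e = e) (hp : e ∈ periodicPts (g ∘ m)) : other m g e ≠ e := by
  have h0 := h.even he hp
  have hpos := period_pos hp
  intro h1
  have h2 : IsPeriodicPt (g ∘ m) (minimalPeriod (g ∘ m) e / 2) e := h1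
  have h3 := h2.minimalPeriod_le (by omega)
  omega

omit h in
theorem conn_other (e : α) : Conn m g e (other m g e) := Conn.iter _ _

/-- every connected point is in the orbit -/
theorem exists_iter (he : g e = e) (hp : e ∈ periodicPts (g ∘ m)) {x : α} (hc : Conn m g e x) :
    ∃ k, k < minimalPeriod (g ∘ m) e ∧ x = (g ∘ m)^[k] e := by
  have hpos := period_pos hp
  induction hc with
  | refl => exact ⟨0, hpos, rfl⟩
  | @tail b c _ h2 ih =>
    obtain ⟨k, hk, rfl⟩ := ih
    rcases h2 with rfl | rfl
    · exact ⟨minimalPeriod (g ∘ m) e - (k + 1), by omega, h.m_iter he (by omega)⟩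
    · rw [h.g_iter he hk.le]
      rcases Nat.eq_zero_or_pos k with rfl | hk0
      · refine ⟨0, hpos, ?_⟩
        rw [Nat.sub_zero, iterate_minimalPeriod]
        rfl
      · exact ⟨minimalPeriod (g ∘ m) e - k, by omega, rfl⟩

/-- **exactly two ends** -/
theorem eq_or_eq_other (he : g e = e) (hp : e ∈ periodicPts (g ∘ m)) {x : α} (hx : g x = x)
    (hc : Conn m g e x) : x = e ∨ x = other m g e := by
  obtain ⟨k, hk, rfl⟩ := h.exists_iter he hp hc
  have h0 := h.even he hp
  rw [h.g_iter he hk.le] at hx
  rcases Nat.eq_zero_or_pos k with rfl | hk0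
  · exact Or.inl rfl
  · right
    have h1 : minimalPeriod (g ∘ m) e - k = k :=
      (iterate_eq_iterate_iff_of_lt_minimalPeriod (f := g ∘ m) (x := e) (by omega) hk).1 hx
    unfold other
    congr 1
    omega

theorem conn_iff (he : g e = e) (hp : e ∈ periodicPts (g ∘ m)) {x : α} (hx : g x = x) :
    Conn m g e x ↔ x = e ∨ x = other m g e := by
  refine ⟨h.eq_or_eq_other he hp hx, ?_⟩
  rintro (rfl | rfl)
  · exact Conn.refl _
  · exact conn_other e

omit h in
theorem other_periodic (hp : e ∈ periodicPts (g ∘ m)) : other m g e ∈ periodicPts (g ∘ m) := by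
  obtain ⟨n, hn, h1⟩ := hp
  exact ⟨n, hn, h1.apply_iterate _⟩

theorem other_other (he : g e = e) (hp : e ∈ periodicPts (g ∘ m)) :
    other m g (other m g e) = e := by
  have h1 := h.eq_or_eq_other (h.other_fix he hp) (other_periodic hp) he (h.symm (conn_other e))
  rcases h1 with h1 | h1
  · exact absurd h1.symm (h.other_ne he hp)
  · exact h1.symm

theorem other_eq_iff {x : α} (he : g e = e) (hp : e ∈ periodicPts (g ∘ m)) (hx : g x = x) :
    other m g e = x ↔ Conn m g e x ∧ x ≠ e := by
  constructor
  · rintro rfl
    exact ⟨conn_other e, h.other_ne he hp⟩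
  · rintro ⟨h1, h2⟩
    exact ((h.eq_or_eq_other he hp hx h1).resolve_left h2).symm

/-- the inner points of a strand are not fixed -/
theorem inner (he : g e = e) (hp : e ∈ periodicPts (g ∘ m)) {k : ℕ} (hk : 1 ≤ k)
    (hk2 : k < minimalPeriod (g ∘ m) e / 2) : g ((g ∘ m)^[k] e) ≠ (g ∘ m)^[k] e := by
  intro h1
  have h0 := h.even he hp
  rcases h.eq_or_eq_other he hp h1 (Conn.iter k e) with h2 | h2
  · have h3 := (iterate_eq_iterate_iff_of_lt_minimalPeriod (f := g ∘ m) (x := e) (m := k) (n := 0)
      (by omega) (by omega)).1 h2
    omega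
  · have h3 := (iterate_eq_iterate_iff_of_lt_minimalPeriod (f := g ∘ m) (x := e) (m := k)
      (n := minimalPeriod (g ∘ m) e / 2) (by omega) (by omega)).1 h2
    omega

/-- induction along a strand: the last but one point is the partner of the other end -/
theorem m_last (he : g e = e) (hp : e ∈ periodicPts (g ∘ m)) :
    m ((g ∘ m)^[minimalPeriod (g ∘ m) e / 2 - 1] e) = other m g e := by
  have h0 := h.even he hp
  have hpos := period_pos hp
  rw [h.m_iter he (by omega)]
  unfold other
  congr 1
  omega

end Two

/-! ### composition -/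

section ext
variable {m g g' : α → α}

/-- steps between the fixed points of `g`: along the strands, and by `g'` -/
def Jump (m g g' : α → α) : α → α → Prop :=
  ReflTransGen fun x y => g x = x ∧ (y = other m g x ∨ y = g' x)

/-- if `g'` extends `g` (it is equal to `g` where `g` moves), two fixed points of `g` are connected by
`m` and `g'` if and only if they are connected by the strands of `(m, g)` and by `g'` -/
theorem conn_ext (h : Two m g) (h' : Two m g') (hper : ∀ x, x ∈ periodicPts (g ∘ m))
    (hext : ∀ x, g x ≠ x → g' x = g x) {x y : α} (hx : g x = x) (hy : g y = y) :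
    Conn m g' x y ↔ Jump m g g' x y := by
  -- `g'` preserves the fixed points of `g`
  have hfix : ∀ x, g x = x → g (g' x) = g' x := by
    intro x hx
    by_contra hne
    have h1 := hext _ hne
    rw [h'.g_inv] at h1
    have h2 : g x = g' x := by
      have h3 := congrArg g h1
      rw [h.g_inv] at h3
      exact h3
    rw [hx] at h2
    rw [← h2] at hne
    exact hne hx
  constructor
  · intro hc
    have key : ∀ b, Conn m g' x b → ∃ c, g c = c ∧ Conn m g b c ∧ Jump m g g' x c := by
      intro b hb
      induction hb with
      | refl => exact ⟨x, hx, Conn.refl _, ReflTransGen.refl⟩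
      | @tail b d _ h2 ih =>
        obtain ⟨c, hc1, hc2, hc3⟩ := ih
        rcases h2 with rfl | rfl
        · refine ⟨c, hc1, ?_, hc3⟩
          exact (h.symm (Conn.m_step b)).trans hc2
        · by_cases hb : g b = b
          · -- `b` is a fixed point of `g`
            refine ⟨g' b, hfix b hb, Conn.refl _, ?_⟩
            have h3 : Jump m g g' x b := by
              rcases h.eq_or_eq_other hc1 (hper c) hb (h.symm hc2) with h4 | h4
              · rw [h4]; exact hc3
              · rw [h4]; exact hc3.tail ⟨hc1, Or.inl rfl⟩
            exact h3.tail ⟨hb, Or.inr rfl⟩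
          · rw [hext b hb]
            exact ⟨c, hc1, (h.symm (Conn.g_step b)).trans hc2, hc3⟩
    obtain ⟨c, hc1, hc2, hc3⟩ := key y hc
    rcases h.eq_or_eq_other hc1 (hper c) hy (h.symm hc2) with h4 | h4
    · rw [h4]; exact hc3
    · rw [h4]; exact hc3.tail ⟨hc1, Or.inl rfl⟩
  · intro hj
    induction hj with
    | refl => exact Conn.refl _
    | @tail b c hab h2 ih =>
      obtain ⟨hb, h3⟩ := h2
      refine Conn.trans (ih hb) ?_
      rcases h3 with rfl | rfl
      · -- a strand of `(m, g)` uses `g` only where it moves
        have key : ∀ k, k ≤ minimalPeriod (g ∘ m) b / 2 → Conn m g' b ((g ∘ m)^[k] b) := by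
          intro k hk
          induction k with
          | zero => exact Conn.refl _
          | succ k ihk =>
            have h4 := ihk (by omega)
            rw [iterate_succ_apply']
            refine h4.trans ((Conn.m_step _).trans ?_)
            show Conn m g' (m ((g ∘ m)^[k] b)) (g (m ((g ∘ m)^[k] b)))
            by_cases h5 : g (m ((g ∘ m)^[k] b)) = m ((g ∘ m)^[k] b)
            · rw [h5]; exact Conn.refl _
            · rw [← hext _ h5]; exact Conn.g_step _
        exact key _ le_rfl
      · exact Conn.g_step _

end ext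

/-! ### changing the second involution away from a strand -/

section congr
variable {m g g' : α → α}

theorem iterate_congr_of {e : α} (hg : ∀ y, Conn m g e y → g' y = g y) (k : ℕ) :
    (g' ∘ m)^[k] e = (g ∘ m)^[k] e := by
  induction k with
  | zero => rfl
  | succ k ih =>
    rw [iterate_succ_apply', iterate_succ_apply', ih]
    exact hg _ ((Conn.iter k e).trans (Conn.m_step _))

/-- the strand does not see a change of `g` away from it -/
theorem other_congr_of {e : α} (hg : ∀ y, Conn m g e y → g' y = g y) :
    other m g' e = other m g e := by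
  have h1 : minimalPeriod (g' ∘ m) e = minimalPeriod (g ∘ m) e := by
    refine minimalPeriod_eq_minimalPeriod_iff.2 fun n => ?_
    show (g' ∘ m)^[n] e = e ↔ (g ∘ m)^[n] e = e
    rw [iterate_congr_of hg n]
  unfold other
  rw [h1, iterate_congr_of hg]

theorem conn_congr_of {e x : α} (hg : ∀ y, Conn m g e y → g' y = g y) (hc : Conn m g e x) :
    Conn m g' e x := by
  induction hc with
  | refl => exact Conn.refl _
  | @tail b c hab h2 ih =>
    refine ih.trans ?_
    rcases h2 with rfl | rfl
    · exact Conn.m_step _
    · rw [← hg b hab]; exact Conn.g_step _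

end congr

end Full
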